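import Mathlib

/-!
# Representations with the same traces: statements

`E` is a field of characteristic zero, `R` an `E`-algebra (a group algebra), all the modules are
finite dimensional over `E`.
-/

set_option autoImplicit false

open Polynomial Module

namespace Pool.Agent.U707.PT

/-- `f ≠ 0` and all the complex roots of `f` have the absolute value `q ^ (c / 2)`. -/
def IsWeil (q : ℕ) (c : ℤ) (f : ℚ[X]) : Prop :=
  f ≠ 0 ∧ ∀ z : ℂ, aeval z f = 0 → ‖z‖ ^ 2 = (q : ℝ) ^ c

theorem IsWeil.mul {q : ℕ} {c : ℤ} {f g : ℚ[X]} (hf : IsWeil q c f) (hg : IsWeil q c g) :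
    IsWeil q c (f * g) := by
  refine ⟨mul_ne_zero hf.1 hg.1, fun z hz => ?_⟩
  rw [map_mul, mul_eq_zero] at hz
  rcases hz with hz | hz
  · exact hf.2 z hz
  · exact hg.2 z hz

theorem IsWeil.one (q : ℕ) (c : ℤ) : IsWeil q c 1 :=
  ⟨one_ne_zero, fun z hz => absurd hz (by rw [map_one]; exact one_ne_zero)⟩

section
variable {E : Type} [Field E] [CharZero E] {V : Type} [AddCommGroup V] [Module E V]

/-- The part of weight `c` of `V` for the operator `F`: the vectors which are killed by some
`f(F)`, where `f` is a rational polynomial all of whose complex roots have the absolute value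
`q ^ (c / 2)`. -/
def wt (q : ℕ) (F : Module.End E V) (c : ℤ) : Submodule E V where
  carrier := {x | ∃ f, IsWeil q c f ∧ aeval F (f.map (algebraMap ℚ E)) x = 0}
  zero_mem' := ⟨1, IsWeil.one q c, map_zero _⟩
  add_mem' := by
    rintro x y ⟨f, hf, hx⟩ ⟨g, hg, hy⟩
    refine ⟨f * g, hf.mul hg, ?_⟩
    rw [map_add]
    have h1 : aeval F ((f * g).map (algebraMap ℚ E)) x = 0 := by
      rw [mul_comm, Polynomial.map_mul, map_mul, Module.End.mul_apply, hx, map_zero]
    have h2 : aeval F ((f * g).map (algebraMap ℚ E)) y = 0 := by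
      rw [Polynomial.map_mul, map_mul, Module.End.mul_apply, hy, map_zero]
    rw [h1, h2, add_zero]
  smul_mem' := by
    rintro a x ⟨f, hf, hx⟩
    exact ⟨f, hf, by rw [map_smul, hx, smul_zero]⟩

/-- The exponential of a nilpotent endomorphism of a finite dimensional space. -/
noncomputable def expN (N : Module.End E V) : Module.End E V :=
  ∑ k ∈ Finset.range (finrank E V + 1), ((k.factorial : E)⁻¹) • N ^ k

/-- `V` is mw pure of weight `m`, for the Frobenius operator `F` and the monodromy operator `N`: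
`V` is generated by its parts of integral weights, and `N ^ k` is a bijection from the part of
weight `m + k` to the part of weight `m - k` for all `k`. -/
def MWPure (q : ℕ) (F N : Module.End E V) (m : ℤ) : Prop :=
  (⨆ c, wt q F c) = ⊤ ∧ ∀ k : ℕ, Set.BijOn (N ^ k) (wt q F (m + k)) (wt q F (m - k))

end

section
variable {E : Type} [Field E] {R : Type} [Ring R] [Algebra E R]

/-- The operator on the `R`-module `M` given by `r`. -/
def act (M : Type) [AddCommGroup M] [Module E M] [Module R M] [IsScalarTower E R M] (r : R) :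
    Module.End E M where
  toFun x := r • x
  map_add' := smul_add r
  map_smul' a x := by
    rw [RingHom.id_apply, ← algebraMap_smul R a x, ← algebraMap_smul R a (r • x), smul_smul,
      smul_smul, Algebra.commutes]

end

/-- The operator given by the element `r` of the group algebra. -/
noncomputable def gact {E G V : Type} [Field E] [Group G] [AddCommGroup V] [Module E V]
    (ρ : G →* Module.End E V) (r : MonoidAlgebra E G) : Module.End E V :=
  MonoidAlgebra.lift E (Module.End E V) G ρ r

/-- `U` is a quotient of a submodule of `M`. -/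
def IsSubquot (R U M : Type) [Ring R] [AddCommGroup U] [Module R U] [AddCommGroup M]
    [Module R M] : Prop := ∃ (B : Submodule R M) (f : B →ₗ[R] U), Function.Surjective f

/-- The mean weight of every submodule of the `R`-module `M` is `m`. -/
def Balanced {E : Type} [Field E] [CharZero E] {R : Type} [Ring R] [Algebra E R] (M : Type)
    [AddCommGroup M] [Module E M] [Module R M] [IsScalarTower E R M] (q : ℕ) (F : R) (m : ℤ) :
    Prop :=
  ∀ W : Submodule R M, ∑ᶠ c : ℤ, (c - m) *
    (finrank E (W.restrictScalars E ⊓ wt q (act (E := E) M F) c : Submodule E M) : ℤ) = 0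

/-- **PROJ.** The projections to the parts of given weight are polynomials in the operator. -/
def S_PROJ : Prop := ∀ (E : Type) [Field E] [CharZero E] (ι : Type) [Fintype ι] (V : ι → Type)
  [∀ i, AddCommGroup (V i)] [∀ i, Module E (V i)] [∀ i, FiniteDimensional E (V i)]
  (F : ∀ i, Module.End E (V i)) (q : ℕ), 1 < q → (∀ i, (⨆ c, wt q (F i) c) = ⊤) →
  ∃ p : ℤ → ℚ[X], ∀ (i : ι) (c d : ℤ), ∀ x ∈ wt q (F i) d,
    aeval (F i) ((p c).map (algebraMap ℚ E)) x = if d = c then x else 0

/-- **LOG.** The logarithm is a polynomial for nilpotent elements of bounded index. -/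
def S_LOG : Prop := ∀ D : ℕ, ∃ L : ℚ[X], ∀ (A : Type) [Ring A] [Algebra ℚ A] (N : A),
  N ^ D = 0 → aeval (IsNilpotent.exp N) L = N

/-- **DET.** (Brauer, Nesbitt.) A simple module which occurs in a module with positive coefficient
occurs in one with negative coefficient. -/
def S_DET : Prop := ∀ (E R : Type) [Field E] [CharZero E] [Ring R] [Algebra E R]
  (ι : Type) [Fintype ι] (M : ι → Type) [∀ i, AddCommGroup (M i)] [∀ i, Module E (M i)]
  [∀ i, Module R (M i)] [∀ i, IsScalarTower E R (M i)] [∀ i, FiniteDimensional E (M i)]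
  (b : ι → ℤ),
  (∀ r : R, ∑ i, (b i : E) * LinearMap.trace E (M i) (act (M i) r) = 0) →
  ∀ (U : Type) [AddCommGroup U] [Module E U] [Module R U] [IsScalarTower E R U]
    [FiniteDimensional E U] [IsSimpleModule R U] (i₀ : ι), 0 < b i₀ → IsSubquot R U (M i₀) →
    ∃ i, b i < 0 ∧ IsSubquot R U (M i)

/-- **SUB.** Subquotients of mw pure modules with balanced submodules are mw pure. -/
def S_SUB : Prop := ∀ (E R : Type) [Field E] [CharZero E] [Ring R] [Algebra E R]
  (M U : Type) [AddCommGroup M] [Module E M] [Module R M] [IsScalarTower E R M]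
  [FiniteDimensional E M] [AddCommGroup U] [Module E U] [Module R U] [IsScalarTower E R U]
  [FiniteDimensional E U] (q : ℕ) (F ν : R) (m : ℤ), 1 < q →
  (∀ x : M, ν • F • x = (q : E) • F • ν • x) →
  MWPure q (act (E := E) M F) (act (E := E) M ν) m → Balanced (E := E) M q F m →
  IsSubquot R U M → MWPure q (act (E := E) U F) (act (E := E) U ν) m

/-- **EXT.** Extensions of mw pure modules of the same weight are mw pure. -/
def S_EXT : Prop := ∀ (E R : Type) [Field E] [CharZero E] [Ring R] [Algebra E R]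
  (M : Type) [AddCommGroup M] [Module E M] [Module R M] [IsScalarTower E R M]
  [FiniteDimensional E M] (q : ℕ) (F ν : R) (m : ℤ) (W : Submodule R M), 1 < q →
  (∀ x : M, ν • F • x = (q : E) • F • ν • x) →
  MWPure q (act (E := E) W F) (act (E := E) W ν) m →
  MWPure q (act (E := E) (M ⧸ W) F) (act (E := E) (M ⧸ W) ν) m →
  MWPure q (act (E := E) M F) (act (E := E) M ν) m

/-- **FAC.** Traces on the invariants of mw pure modules. -/
def S_FAC : Prop := ∀ (E R : Type) [Field E] [CharZero E] [Ring R] [Algebra E R]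
  (ι : Type) [Fintype ι] (M : ι → Type) [∀ i, AddCommGroup (M i)] [∀ i, Module E (M i)]
  [∀ i, Module R (M i)] [∀ i, IsScalarTower E R (M i)] [∀ i, FiniteDimensional E (M i)]
  (b : ι → ℤ) (q : ℕ) (F ν e : R) (m : ℤ), 1 < q →
  (∀ r : R, ∑ i, (b i : E) * LinearMap.trace E (M i) (act (M i) r) = 0) →
  (∀ i, ∀ x : M i, ν • F • x = (q : E) • F • ν • x) →
  (∀ i, ∀ x : M i, e • e • x = e • x ∧ e • F • x = F • e • x ∧ e • ν • x = ν • e • x) →
  (∀ i, MWPure q (act (E := E) (M i) F) (act (E := E) (M i) ν) m) →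
  ∀ (T : ∀ i, Module.End E (LinearMap.ker (act (E := E) (M i) ν) ⊓
      LinearMap.ker (act (E := E) (M i) (e - 1)) : Submodule E (M i))),
    (∀ i x, ((T i x : (LinearMap.ker (act (E := E) (M i) ν) ⊓
      LinearMap.ker (act (E := E) (M i) (e - 1)) : Submodule E (M i))) : M i) = F • (x : M i)) →
    ∀ k : ℕ, ∑ i, (b i : E) * LinearMap.trace E _ (T i ^ k) = 0

/-- **ROOT.** Characteristic polynomials are determined by the traces of the powers. -/
def S_ROOT : Prop := ∀ (E : Type) [Field E] [CharZero E] (ι : Type) [Fintype ι] (V : ι → Type)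
  [∀ i, AddCommGroup (V i)] [∀ i, Module E (V i)] [∀ i, FiniteDimensional E (V i)]
  (T : ∀ i, Module.End E (V i)) (b : ι → ℤ),
  (∀ k : ℕ, ∑ i, (b i : E) * LinearMap.trace E _ (T i ^ k) = 0) →
  ∏ i, (T i).charpoly.reverse ^ (b i).toNat = ∏ i, (T i).charpoly.reverse ^ (-b i).toNat

/-- **INT.** Roots of integral polynomials with constant term `1`. -/
def S_INT : Prop := ∀ b : ℕ, 0 < b → ∀ A B : ℤ[X], A.coeff 0 = 1 → B.coeff 0 = 1 →
  ∃ P : ℤ[X], ∀ (E : Type) [Field E] [CharZero E] (f : E[X]), f.coeff 0 = 1 →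
    f ^ b * B.map (Int.castRingHom E) = A.map (Int.castRingHom E) →
    f = P.map (Int.castRingHom E)

/-- **RING.** The monodromy operators, and the projections to the invariants of the inertia group
divided by its unipotent part, come from elements of the group algebra. -/
def S_RING : Prop := ∀ (E G : Type) [Field E] [CharZero E] [Group G] (ι : Type) [Fintype ι]
  (V : ι → Type) [∀ i, AddCommGroup (V i)] [∀ i, Module E (V i)] [∀ i, FiniteDimensional E (V i)]
  (ρ : ∀ i, G →* Module.End E (V i)) (N : ∀ i, Module.End E (V i)) (I U : Subgroup G) [U.Normal]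
  [U.FiniteIndex] (φ : G) (t : G → E) (q : ℕ), 1 < q →
  (∀ g, g ∈ I ↔ φ * g * φ⁻¹ ∈ I) →
  (∀ g ∈ I, ∀ h ∈ I, t (g * h) = t g + t h) → (∀ g ∈ I, t (φ * g * φ⁻¹) = (q : E)⁻¹ * t g) →
  (∃ g ∈ I, t g ≠ 0) →
  (∀ i, IsNilpotent (N i)) → (∀ i, ∀ g ∈ I, g ∈ U → ρ i g = expN (t g • N i)) →
  ∃ ν e : MonoidAlgebra E G, ∀ i, gact (ρ i) ν = N i ∧
    N i * ρ i φ = (q : E) • (ρ i φ * N i) ∧
    gact (ρ i) (e * e) = gact (ρ i) e ∧
    Commute (gact (ρ i) e) (N i) ∧
    Commute (gact (ρ i) e) (ρ i φ) ∧
    ∀ x : V i, (∀ g ∈ I, ρ i g x = x) ↔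
      (N i x = 0 ∧ gact (ρ i) e x = x)

end Pool.Agent.U707.PT
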