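import Pool.Agent.U707.PT.Fin2
import Pool.Agent.U858.PT.PROJ
import Pool.Agent.U750.PT.DET
import Pool.Agent.U49.PT.SUB
import Pool.Agent.U690.PT.EXT
import Pool.Agent.U263.PT.FAC
import Pool.Agent.U399.PT.ROOT
import Pool.Agent.U61.PT.LOG
import Pool.Agent.U962.PT.RING
import Pool.Agent.U864.PT.INT

/-!
Assembly. Co-authors of the parts: helper858 (projections), helper750 (Brauer-Nesbitt), helper49
(subquotients), helper690 (extensions), helper263 (traces on invariants), helper399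
(characteristic polynomials), helper61 (logarithm), helper962 (monodromy in the group algebra),
helper864 (integrality).
-/

set_option autoImplicit false

open Polynomial Module NumberField

namespace Pool.Agent.U707.PT

theorem sPROJ : S_PROJ := Pool.Agent.U858.PT.t_PROJ
theorem sDET : S_DET := Pool.Agent.U750.PT.t_DET
theorem sSUB : S_SUB := Pool.Agent.U49.PT.t_SUB sPROJ
theorem sEXT : S_EXT := Pool.Agent.U690.PT.t_EXT sPROJ
theorem sFAC : S_FAC := Pool.Agent.U263.PT.t_FAC sPROJ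
theorem sROOT : S_ROOT := Pool.Agent.U399.PT.t_ROOT
theorem sRING : S_RING := Pool.Agent.U962.PT.t_RING Pool.Agent.U61.PT.t_LOG
theorem sINT : S_INT := Pool.Agent.U864.PT.t_INT

/-- the local theorem -/
theorem local_gen {ℓ : ℕ} [Fact ℓ.Prime] {μ κ : Type} [Fintype μ] [Fintype κ]
    (H : μ → GalRep ℓ) (W : κ → GalRep ℓ) (u : μ → ℤ) (w : κ → ℤ) (ε : μ → ℤ) (d : κ → ℤ)
    (hu : Function.Injective u) (hε : ∀ i, ε i * ε i = 1)
    (hH : ∀ i, (H i).IsPure (u i)) (hW : ∀ j, (W j).IsPure (w j)) {B : Set ℕ} (hB : Thin B)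
    (htr : ∀ q, q.Prime → q ∉ B → ∀ Q φ, Above q Q → IsFrob q Q φ →
      ∑ i, (ε i : ℚ_[ℓ]) * (H i).tr φ = ∑ j, (d j : ℚ_[ℓ]) * (W j).tr φ)
    {p : ℕ} (hp : p.Prime) {Q : Ideal Zbar} {φ : AbsGal} (hQ : Above p Q) (hφ : IsFrob p Q φ)
    {t : AbsGal → ℚ_[ℓ]} (ht : IsTame p Q φ t) (hHN : ∀ i, ∃ N, (H i).IsMonodromy Q t N)
    (hWN : ∀ j, ∃ N, (W j).IsMonodromy Q t N) (i₀ : μ)
    (hg : ∀ j, w j = u i₀ → 0 < ε i₀ * d j → (W j).Good p Q φ t (w j)) :
    (H i₀).MonodromyWeight p Q φ t (u i₀) ∧ ∀ (f : ℚ_[ℓ][X]) (g : κ → ℚ_[ℓ][X]),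
      (H i₀).IsLocalFactor Q φ f → (∀ j, w j = u i₀ → (W j).IsLocalFactor Q φ (g j)) →
      f * ∏ j with w j = u i₀, g j ^ (-(ε i₀ * d j)).toNat =
        ∏ j with w j = u i₀, g j ^ (ε i₀ * d j).toNat :=
  local_one sPROJ sDET sSUB sEXT sFAC sROOT sRING H W u w ε d hu hε hH hW hB htr hp hQ hφ ht hHN
    hWN i₀ hg

end Pool.Agent.U707.PT
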