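import Pool.Agent.U707.PT.All

/-! Continuation of products of Euler products. -/

set_option autoImplicit false

open Polynomial Module NumberField

namespace Pool.Agent.U707.PT

/-- The Euler product of the `P_p(p ^ (-s))⁻¹` converges for `Re s > σ` and has a meromorphic
continuation to the plane. -/
def HasMeromorphic (P : ℕ → ℚ[X]) (σ : ℝ) : Prop := ∃ L, IsLFunction P σ L ∧ Meromorphic L

/-- The Euler product of the `P_p(p ^ (-s))⁻¹` converges for `Re s > σ` and has a holomorphic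
continuation to the plane. -/
def HasEntire (P : ℕ → ℚ[X]) (σ : ℝ) : Prop := ∃ L, IsLFunction P σ L ∧ Differentiable ℂ L

/-- The Euler product of the `P_p(p ^ (-s))⁻¹` converges for `Re s > i / 2 + 1` and has a
meromorphic continuation to the plane, which is holomorphic except possibly for a pole at
`i / 2 + 1` if `i` is even. -/
def HasExpected (P : ℕ → ℚ[X]) (i : ℕ) : Prop :=
  ∃ L, IsLFunction P ((i : ℝ) / 2 + 1) L ∧ Meromorphic L ∧
    ∀ s : ℂ, (s ≠ (i : ℂ) / 2 + 1 ∨ Odd i) → DifferentiableAt ℂ L s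

section
variable {κ : Type} [Fintype κ] {P : ℕ → ℚ[X]} {R : κ → ℕ → ℚ[X]} {c : κ → ℤ}

theorem mero_prod (S : Finset κ) (hrel : ∀ p : ℕ, p.Prime →
      P p * ∏ j ∈ S, R j p ^ (-c j).toNat = ∏ j ∈ S, R j p ^ (c j).toNat)
    (σ : ℝ) (L : κ → ℂ → ℂ) (hL : ∀ j ∈ S, IsLFunction (R j) σ (L j)) :
    IsLFunction P σ (fun s => ∏ j ∈ S, L j s ^ c j) := by
  classical
  have h1 := isLFunction_prod (κ := S) P (fun j => R j) (fun j => c j) (by
    intro p hp
    rw [Finset.prod_coe_sort S (fun j => R j p ^ (-c j).toNat),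
      Finset.prod_coe_sort S (fun j => R j p ^ (c j).toNat)]
    exact hrel p hp) σ (fun j => L j) (fun j => hL j j.2)
  have h2 : (fun s => ∏ j ∈ S, L j s ^ c j) = fun s => ∏ j : S, L j s ^ c j := by
    funext s
    rw [Finset.prod_coe_sort S (fun j => L j s ^ c j)]
  rw [h2]
  exact h1

theorem hasMeromorphic_of (S : Finset κ) (hrel : ∀ p : ℕ, p.Prime →
      P p * ∏ j ∈ S, R j p ^ (-c j).toNat = ∏ j ∈ S, R j p ^ (c j).toNat)
    (σ : ℝ) (h : ∀ j ∈ S, HasMeromorphic (R j) σ) : HasMeromorphic P σ := by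
  classical
  have h' : ∀ j, ∃ L, j ∈ S → IsLFunction (R j) σ L ∧ Meromorphic L := by
    intro j
    by_cases hj : j ∈ S
    · obtain ⟨L, hL⟩ := h j hj
      exact ⟨L, fun _ => hL⟩
    · exact ⟨0, fun h => absurd h hj⟩
  choose L hL using h'
  refine ⟨_, mero_prod S hrel σ L fun j hj => (hL j hj).1, ?_⟩
  intro s
  exact MeromorphicAt.fun_prod fun j hj => ((hL j hj).2 s).fun_zpow _

theorem hasEntire_of (S : Finset κ) (hrel : ∀ p : ℕ, p.Prime →
      P p * ∏ j ∈ S, R j p ^ (-c j).toNat = ∏ j ∈ S, R j p ^ (c j).toNat)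
    (σ : ℝ) (hc : ∀ j ∈ S, 0 ≤ c j) (h : ∀ j ∈ S, HasEntire (R j) σ) : HasEntire P σ := by
  classical
  have h' : ∀ j, ∃ L, j ∈ S → IsLFunction (R j) σ L ∧ Differentiable ℂ L := by
    intro j
    by_cases hj : j ∈ S
    · obtain ⟨L, hL⟩ := h j hj
      exact ⟨L, fun _ => hL⟩
    · exact ⟨0, fun h => absurd h hj⟩
  choose L hL using h'
  refine ⟨_, mero_prod S hrel σ L fun j hj => (hL j hj).1, ?_⟩
  intro s
  refine DifferentiableAt.fun_finsetProd fun j hj => ?_
  obtain ⟨n, hn⟩ := Int.eq_ofNat_of_zero_le (hc j hj)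
  rw [hn]
  simp only [zpow_natCast]
  exact ((hL j hj).2 s).fun_pow n

theorem hasExpected_of (S : Finset κ) (hrel : ∀ p : ℕ, p.Prime →
      P p * ∏ j ∈ S, R j p ^ (-c j).toNat = ∏ j ∈ S, R j p ^ (c j).toNat)
    (i : ℕ) (hc : ∀ j ∈ S, 0 ≤ c j) (h : ∀ j ∈ S, HasExpected (R j) i) : HasExpected P i := by
  classical
  have h' : ∀ j, ∃ L, j ∈ S → IsLFunction (R j) ((i : ℝ) / 2 + 1) L ∧ Meromorphic L ∧
      ∀ s : ℂ, (s ≠ (i : ℂ) / 2 + 1 ∨ Odd i) → DifferentiableAt ℂ L s := by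
    intro j
    by_cases hj : j ∈ S
    · obtain ⟨L, hL⟩ := h j hj
      exact ⟨L, fun _ => hL⟩
    · exact ⟨0, fun h => absurd h hj⟩
  choose L hL using h'
  refine ⟨_, mero_prod S hrel _ L fun j hj => (hL j hj).1, ?_, ?_⟩
  · intro s
    exact MeromorphicAt.fun_prod fun j hj => ((hL j hj).2.1 s).fun_zpow _
  · intro s hs
    refine DifferentiableAt.fun_finsetProd fun j hj => ?_
    obtain ⟨n, hn⟩ := Int.eq_ofNat_of_zero_le (hc j hj)
    rw [hn]
    simp only [zpow_natCast]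
    exact ((hL j hj).2.2 s hs).fun_pow n

end

end Pool.Agent.U707.PT
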