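import Pool.Agent.U707.PT.Stm

/-! The core: purity is inherited. -/

set_option autoImplicit false

open Polynomial Module

namespace Pool.Agent.U707.PT

theorem IsSubquot.trans {R U Y M : Type} [Ring R] [AddCommGroup U] [Module R U] [AddCommGroup Y]
    [Module R Y] [AddCommGroup M] [Module R M] (h1 : IsSubquot R U Y) (h2 : IsSubquot R Y M) :
    IsSubquot R U M := by
  obtain ⟨B, f, hf⟩ := h1
  obtain ⟨X, g, hg⟩ := h2
  set C : Submodule R X := B.comap g with hC
  have g' : C →ₗ[R] B := g.restrict (fun x hx => hx)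
  refine ⟨C.map X.subtype, f ∘ₗ (g.restrict (p := C) (q := B) (fun x hx => hx)) ∘ₗ
    (Submodule.equivMapOfInjective X.subtype X.injective_subtype C).symm.toLinearMap, ?_⟩
  intro u
  obtain ⟨y, rfl⟩ := hf u
  obtain ⟨x, hx⟩ := hg y.1
  have hxC : x ∈ C := by
    rw [hC, Submodule.mem_comap, hx]
    exact y.2
  refine ⟨Submodule.equivMapOfInjective X.subtype X.injective_subtype C ⟨x, hxC⟩, ?_⟩
  simp only [LinearMap.comp_apply, LinearEquiv.coe_coe, LinearEquiv.symm_apply_apply]
  congr 1
  exact Subtype.ext hx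

theorem isSubquot_sub {R M : Type} [Ring R] [AddCommGroup M] [Module R M] (W : Submodule R M) :
    IsSubquot R W M := ⟨W, LinearMap.id, fun x => ⟨x, rfl⟩⟩

theorem isSubquot_quot {R M : Type} [Ring R] [AddCommGroup M] [Module R M] (W : Submodule R M) :
    IsSubquot R (M ⧸ W) M :=
  ⟨⊤, W.mkQ ∘ₗ (⊤ : Submodule R M).subtype, fun y => by
    obtain ⟨x, rfl⟩ := W.mkQ_surjective y
    exact ⟨⟨x, trivial⟩, rfl⟩⟩

section
variable {E : Type} [Field E] [CharZero E]

theorem mwPure_of_subsingleton {V : Type} [AddCommGroup V] [Module E V] [Subsingleton V] (q : ℕ)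
    (F N : Module.End E V) (m : ℤ) : MWPure q F N m := by
  refine ⟨Subsingleton.elim _ _, fun k => ⟨?_, ?_, ?_⟩⟩
  · intro x _
    rw [Subsingleton.elim ((N ^ k) x) 0]
    exact zero_mem _
  · intro x _ y _ _
    exact Subsingleton.elim _ _
  · intro y _
    exact ⟨0, zero_mem _, Subsingleton.elim _ _⟩

variable {R : Type} [Ring R] [Algebra E R]

theorem pure_of_simple (hE : S_EXT) (q : ℕ) (F ν : R) (m : ℤ) (hq : 1 < q) (d : ℕ) :
    ∀ (M : Type) [AddCommGroup M] [Module E M] [Module R M] [IsScalarTower E R M]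
      [FiniteDimensional E M], finrank E M ≤ d →
      (∀ x : M, ν • F • x = (q : E) • F • ν • x) →
      (∀ (U : Type) [AddCommGroup U] [Module E U] [Module R U] [IsScalarTower E R U]
        [FiniteDimensional E U] [IsSimpleModule R U], IsSubquot R U M →
          MWPure q (act (E := E) U F) (act (E := E) U ν) m) →
      MWPure q (act (E := E) M F) (act (E := E) M ν) m := by
  induction d with
  | zero =>
    intro M _ _ _ _ _ hd _ _
    have : Subsingleton M := by
      rw [← Module.finrank_zero_iff (R := E)]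
      omega
    exact mwPure_of_subsingleton _ _ _ _
  | succ d ih =>
    intro M _ _ _ _ _ hd htw hU
    rcases subsingleton_or_nontrivial M with h0 | h0
    · exact mwPure_of_subsingleton _ _ _ _
    have hA : IsArtinian R M := isArtinian_of_tower E (inferInstance : IsArtinian E M)
    obtain ⟨W, hW⟩ := IsAtomic.exists_atom (Submodule R M)
    have hWs : IsSimpleModule R W := isSimpleModule_iff_isAtom.2 hW
    have hWf : FiniteDimensional E W :=
      FiniteDimensional.of_injective (W.subtype.restrictScalars E) W.injective_subtype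
    have hpos : 0 < finrank E W := by
      have : Nontrivial W := IsSimpleModule.nontrivial R W
      exact Module.finrank_pos
    have hrk : finrank E (M ⧸ W) + finrank E W = finrank E M := by
      have := Submodule.finrank_quotient_add_finrank (W.restrictScalars E)
      exact this
    have h1 : MWPure q (act (E := E) W F) (act (E := E) W ν) m := hU W (isSubquot_sub W)
    have h2 : MWPure q (act (E := E) (M ⧸ W) F) (act (E := E) (M ⧸ W) ν) m := by
      refine ih (M ⧸ W) (by omega) ?_ ?_
      · intro y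
        obtain ⟨x, rfl⟩ := W.mkQ_surjective y
        have h3 := congrArg W.mkQ (htw x)
        rw [map_smul, map_smul, LinearMap.map_smul_of_tower, map_smul, map_smul] at h3
        exact h3
      · intro U _ _ _ _ _ _ hs
        exact hU U (hs.trans (isSubquot_quot W))
    exact hE E R M q F ν m W hq htw h1 h2

theorem core1 (hD : S_DET) (hS : S_SUB) (hE : S_EXT) {ι : Type} [Fintype ι] (M : ι → Type)
    [∀ i, AddCommGroup (M i)] [∀ i, Module E (M i)]
    [∀ i, Module R (M i)] [∀ i, IsScalarTower E R (M i)] [∀ i, FiniteDimensional E (M i)]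
    (b : ι → ℤ) (q : ℕ) (F ν : R) (m : ℤ) (hq : 1 < q)
    (htr : ∀ r : R, ∑ i, (b i : E) * LinearMap.trace E (M i) (act (M i) r) = 0)
    (htw : ∀ i, ∀ x : M i, ν • F • x = (q : E) • F • ν • x)
    (hg : ∀ i, b i < 0 → MWPure q (act (E := E) (M i) F) (act (E := E) (M i) ν) m ∧
      Balanced (E := E) (M i) q F m) (i : ι) (hi : 0 < b i) :
    MWPure q (act (E := E) (M i) F) (act (E := E) (M i) ν) m := by
  refine pure_of_simple hE q F ν m hq _ (M i) le_rfl (htw i) ?_
  intro U _ _ _ _ _ _ hU
  obtain ⟨j, hj, hUj⟩ := hD E R ι M b htr U i hi hU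
  exact hS E R (M j) U q F ν m hq (htw j) (hg j hj).1 (hg j hj).2 hUj

end

end Pool.Agent.U707.PT
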