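import Pool.Agent.U707.PT.Gal
import Pool.Agent.R401.Dens

/-! Inertia groups and density of the Frobenius elements. -/

set_option autoImplicit false

open Polynomial Module NumberField

namespace Pool.Agent.U707.PT

theorem mem_iff {p : ℕ} {Q : Ideal Zbar} {φ : AbsGal} (hQ : Above p Q) (hφ : IsFrob p Q φ)
    (hp : 0 < p) (x : Zbar) : φ⁻¹ • x ∈ Q ↔ x ∈ Q := by
  have h1 : ∀ x ∈ Q, φ⁻¹ • x ∈ Q := by
    intro x hx
    have h2 := Q.add_mem (hφ x) (Ideal.pow_mem_of_mem Q hx p hp)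
    rwa [sub_add_cancel] at h2
  set Q' : Ideal Zbar := Q.comap (MulSemiringAction.toRingHom AbsGal Zbar φ⁻¹) with hQ'
  have h2 : Q ≤ Q' := h1
  have h3 : Q' ≠ ⊤ := by
    intro h
    have h4 : (1 : Zbar) ∈ Q' := h ▸ Submodule.mem_top
    have h5 : φ⁻¹ • (1 : Zbar) ∈ Q := h4
    rw [smul_one] at h5
    exact hQ.1.ne_top (Q.eq_top_iff_one.2 h5)
  have h4 : Q = Q' := hQ.1.eq_of_le h3 h2
  constructor
  · intro hx
    have : x ∈ Q' := hx
    rwa [← h4] at this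
  · exact h1 x

theorem inertia_conj {p : ℕ} {Q : Ideal Zbar} {φ : AbsGal} (hQ : Above p Q) (hφ : IsFrob p Q φ)
    (hp : 0 < p) (g : AbsGal) : InInertia Q g ↔ InInertia Q (φ * g * φ⁻¹) := by
  have key : ∀ x : Zbar, (φ * g * φ⁻¹) • x - x = φ • (g • (φ⁻¹ • x) - φ⁻¹ • x) := by
    intro x
    rw [smul_sub, smul_inv_smul, mul_smul, mul_smul]
  have h2 : ∀ x : Zbar, φ • x ∈ Q ↔ x ∈ Q := by
    intro x
    rw [← mem_iff hQ hφ hp (φ • x), inv_smul_smul]
  constructor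
  · intro h x
    rw [key, h2]
    exact h _
  · intro h x
    have h3 := h (φ • x)
    rw [key, h2, inv_smul_smul] at h3
    exact h3

/-- the inertia group -/
def inertia (Q : Ideal Zbar) : Subgroup AbsGal where
  carrier := {g | InInertia Q g}
  one_mem' := fun x => by
    rw [one_smul, sub_self]
    exact Q.zero_mem
  mul_mem' := by
    intro g h hg hh x
    have : (g * h) • x - x = (g • (h • x) - h • x) + (h • x - x) := by
      rw [mul_smul]
      ring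
    rw [this]
    exact Q.add_mem (hg _) (hh _)
  inv_mem' := by
    intro g hg x
    have h1 := hg (g⁻¹ • x)
    rw [smul_inv_smul] at h1
    rw [← neg_mem_iff, neg_sub]
    exact h1

theorem mem_inertia {Q : Ideal Zbar} {g : AbsGal} : g ∈ inertia Q ↔ InInertia Q g := Iff.rfl

theorem continuous_tr {ℓ : ℕ} [Fact ℓ.Prime] (R : GalRep ℓ) : Continuous fun g => R.tr g := by
  classical
  set b := Module.finBasis ℚ_[ℓ] R.V with hb
  have h1 : ∀ g, R.tr g = ∑ j, b.coord j (R.ρ g (b j)) := by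
    intro g
    unfold GalRep.tr
    rw [LinearMap.trace_eq_matrix_trace ℚ_[ℓ] b, Matrix.trace]
    refine Finset.sum_congr rfl fun j _ => ?_
    rw [Matrix.diag_apply, LinearMap.toMatrix_apply]
    rfl
  have h2 : (fun g => R.tr g) = fun g => ∑ j, b.coord j (R.ρ g (b j)) := funext h1
  rw [h2]
  exact continuous_finsetSum _ fun j _ => R.cont _ _

open Filter Pool.Agent.W569.FM Pool.Agent.R401.Dens in
/-- every coset of an open normal subgroup contains an arithmetic Frobenius element at a prime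
outside of a set of density zero (as `R401.Dens.exists_frob`) -/
theorem exists_frob_ar (U : Subgroup AbsGal) [U.Normal] (hU : IsOpen (U : Set AbsGal))
    {B : Set ℕ} (hB : Thin B) (g : AbsGal) :
    ∃ (p : ℕ) (P : Ideal Zbar) (σ : AbsGal), p.Prime ∧ p ∉ B ∧ P.IsMaximal ∧ (p : Zbar) ∈ P ∧
      FrobAt p P σ ∧ g⁻¹ * σ ∈ U := by
  classical
  by_contra hcon
  push Not at hcon
  set C : Set AbsGal := {σ | ∃ τ : AbsGal, (τ * g * τ⁻¹)⁻¹ * σ ∈ U} with hCdef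
  have hC : ∀ σ ∈ C, ∀ τ : AbsGal, τ * σ * τ⁻¹ ∈ C := by
    rintro σ ⟨α, hα⟩ τ
    refine ⟨τ * α, ?_⟩
    have h1 : (τ * α * g * (τ * α)⁻¹)⁻¹ * (τ * σ * τ⁻¹) = τ * ((α * g * α⁻¹)⁻¹ * σ) * τ⁻¹ := by
      group
    rw [h1]
    exact Subgroup.Normal.conj_mem inferInstance _ hα τ
  have hCU : ∀ σ ∈ C, ∀ u ∈ U, σ * u ∈ C := by
    rintro σ ⟨α, hα⟩ u hu
    refine ⟨α, ?_⟩
    rw [← mul_assoc]
    exact U.mul_mem hα hu
  have hX : ∀ p : ℕ, p.Prime → ∀ P : Ideal Zbar, P.IsMaximal → (p : Zbar) ∈ P →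
      ∀ g ∈ C, FrobAt p P g → p ∈ B := by
    rintro p hp P hP hpP σ ⟨α, hα⟩ hσ
    by_contra hpB
    set P' : Ideal Zbar := P.comap (MulSemiringAction.toRingHom AbsGal Zbar α) with hP'def
    have hmem : ∀ x, x ∈ P' ↔ α • x ∈ P := fun x => Iff.rfl
    have hP' : P'.IsMaximal := by
      apply Ideal.comap_isMaximal_of_surjective
      intro y
      exact ⟨α⁻¹ • y, by
        change α • α⁻¹ • y = y
        rw [smul_inv_smul]⟩
    have hpP' : (p : Zbar) ∈ P' := by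
      rw [hmem]
      have : α • (p : Zbar) = (p : Zbar) :=
        map_natCast (MulSemiringAction.toRingHom AbsGal Zbar α) p
      rw [this]
      exact hpP
    have hF : FrobAt p P' (α⁻¹ * σ * α) := by
      intro x
      rw [hmem, smul_sub, smul_pow', smul_smul]
      have h1 := hσ (α • x)
      rw [smul_smul] at h1
      have h2 : α * (α⁻¹ * σ * α) = σ * α := by group
      rw [h2]
      exact h1
    refine hcon p P' (α⁻¹ * σ * α) hp hpB hP' hpP' hF ?_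
    have h1 : g⁻¹ * (α⁻¹ * σ * α) = α⁻¹ * ((α * g * α⁻¹)⁻¹ * σ) * α⁻¹⁻¹ := by group
    rw [h1]
    exact Subgroup.Normal.conj_mem inferInstance _ hα α⁻¹
  have hfin : Finite (AbsGal ⧸ U) := Subgroup.quotient_finite_of_isOpen U hU
  have h6 : (0 : ℝ) < Nat.card (AbsGal ⧸ U) := by exact_mod_cast Nat.card_pos
  set ε : ℝ := 1 / (2 * Nat.card (AbsGal ⧸ U)) with hε
  have hε0 : 0 < ε := by positivity
  have hle := card_le U hU C hC hCU B hX ε (hB ε hε0)
  have h5 : 0 < ((QuotientGroup.mk : AbsGal → AbsGal ⧸ U) '' C).ncard := by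
    rw [Set.ncard_pos (Set.toFinite _)]
    refine ⟨_, g, ⟨1, ?_⟩, rfl⟩
    have : (1 * g * 1⁻¹)⁻¹ * g = 1 := by group
    rw [this]
    exact U.one_mem
  have h9 : ε * Nat.card (AbsGal ⧸ U) = 1 / 2 := by
    rw [hε]
    field_simp
  rw [h9] at hle
  have h10 : (1 : ℝ) ≤ (((QuotientGroup.mk : AbsGal → AbsGal ⧸ U) '' C).ncard : ℝ) := by
    exact_mod_cast h5
  linarith

/-- there are Frobenius elements outside of a set of primes of density zero, in every coset of an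
open normal subgroup -/
theorem exists_frob (U : Subgroup AbsGal) [U.Normal] (hU : IsOpen (U : Set AbsGal)) {B : Set ℕ}
    (hB : Thin B) (g : AbsGal) : ∃ (p : ℕ) (Q : Ideal Zbar) (φ : AbsGal), p.Prime ∧ p ∉ B ∧
      Above p Q ∧ IsFrob p Q φ ∧ g⁻¹ * φ ∈ U := by
  obtain ⟨p, P, σ, hp, hpB, hP, hpP, hσ, h⟩ := exists_frob_ar U hU hB g⁻¹
  refine ⟨p, P, σ⁻¹, hp, hpB, ⟨hP, hpP⟩, ?_, ?_⟩
  · intro x
    rw [inv_inv]
    exact hσ x
  · rw [inv_inv] at h
    have h1 := Subgroup.Normal.conj_mem inferInstance _ (U.inv_mem h) g⁻¹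
    have h2 : g⁻¹ * (g * σ)⁻¹ * g⁻¹⁻¹ = g⁻¹ * σ⁻¹ := by group
    rwa [h2] at h1

theorem thin_of_finite {B : Set ℕ} (hB : B.Finite) : Thin B := by
  intro ε hε0
  have h7 : Filter.Tendsto (fun n : ℕ => ε * (Nat.primeCounting n : ℝ)) Filter.atTop
      Filter.atTop :=
    (tendsto_natCast_atTop_atTop.comp Nat.tendsto_primeCounting).const_mul_atTop hε0
  filter_upwards [h7.eventually_ge_atTop (B.ncard : ℝ)] with n hn
  refine le_trans ?_ hn
  have h8 : {p : ℕ | p ≤ n ∧ p.Prime ∧ p ∈ B} ⊆ B := fun x hx => hx.2.2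
  exact_mod_cast Set.ncard_le_ncard h8 hB

theorem thin_union {B B' : Set ℕ} (hB : Thin B) (hB' : Thin B') : Thin (B ∪ B') := by
  intro ε hε
  filter_upwards [hB (ε / 2) (by positivity), hB' (ε / 2) (by positivity)] with x h1 h2
  have hsub : {p : ℕ | p ≤ x ∧ p.Prime ∧ p ∈ B ∪ B'} ⊆
      {p : ℕ | p ≤ x ∧ p.Prime ∧ p ∈ B} ∪ {p : ℕ | p ≤ x ∧ p.Prime ∧ p ∈ B'} := by
    rintro p ⟨h3, h4, h5 | h5⟩
    · exact Or.inl ⟨h3, h4, h5⟩
    · exact Or.inr ⟨h3, h4, h5⟩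
  have hfin : ({p : ℕ | p ≤ x ∧ p.Prime ∧ p ∈ B} ∪
      {p : ℕ | p ≤ x ∧ p.Prime ∧ p ∈ B'} : Set ℕ).Finite :=
    ((Set.finite_Iic x).subset fun p hp => hp.1).union
      ((Set.finite_Iic x).subset fun p hp => hp.1)
  have h3 : ({p : ℕ | p ≤ x ∧ p.Prime ∧ p ∈ B ∪ B'}.ncard : ℝ) ≤
      ({p : ℕ | p ≤ x ∧ p.Prime ∧ p ∈ B}.ncard : ℝ) +
        ({p : ℕ | p ≤ x ∧ p.Prime ∧ p ∈ B'}.ncard : ℝ) := by
    exact_mod_cast (Set.ncard_le_ncard hsub hfin).trans (Set.ncard_union_le _ _)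
  linarith

theorem tr_zero {ℓ : ℕ} [Fact ℓ.Prime] {ι : Type} [Fintype ι] (R : ι → GalRep ℓ) (b : ι → ℤ)
    {B : Set ℕ} (hB : Thin B)
    (h : ∀ p, p.Prime → p ∉ B → ∀ Q φ, Above p Q → IsFrob p Q φ →
      ∑ i, (b i : ℚ_[ℓ]) * (R i).tr φ = 0) (g : AbsGal) : ∑ i, (b i : ℚ_[ℓ]) * (R i).tr g = 0 := by
  by_contra hne
  have hc : Continuous fun x => ∑ i, (b i : ℚ_[ℓ]) * (R i).tr (g * x) :=
    continuous_finsetSum _ fun i _ =>
      continuous_const.mul ((continuous_tr (R i)).comp (continuous_const.mul continuous_id))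
  have ho : IsOpen {x : AbsGal | ∑ i, (b i : ℚ_[ℓ]) * (R i).tr (g * x) ≠ 0} :=
    isOpen_ne_fun hc continuous_const
  obtain ⟨U, hUs⟩ := ProfiniteGrp.exist_openNormalSubgroup_sub_open_nhds_of_one ho (by
    change ∑ i, (b i : ℚ_[ℓ]) * (R i).tr (g * 1) ≠ 0
    rwa [mul_one])
  have hUn : (U : Subgroup AbsGal).Normal := U.isNormal'
  obtain ⟨p, Q, φ, hp, hpB, hQ, hφ, hU⟩ := exists_frob (U : Subgroup AbsGal) U.isOpen' hB g
  have h1 := hUs hU
  apply h1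
  rw [mul_inv_cancel_left]
  exact h p hp hpB Q φ hQ hφ

end Pool.Agent.U707.PT
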