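import Pool.Agent.U707.PT.Main

/-! The systems for all `ℓ`. -/

set_option autoImplicit false

open Polynomial Module NumberField

namespace Pool.Agent.U707.PT

theorem localFactor_coeff_zero {ℓ : ℕ} [Fact ℓ.Prime] {R : GalRep ℓ} {Q : Ideal Zbar} {φ : AbsGal}
    {f : ℚ_[ℓ][X]} (h : R.IsLocalFactor Q φ f) : f.coeff 0 = 1 := by
  obtain ⟨T, -, rfl⟩ := h
  rw [Polynomial.coeff_zero_reverse]
  exact T.charpoly_monic

theorem localFactor_unique {ℓ : ℕ} [Fact ℓ.Prime] {R : GalRep ℓ} {Q : Ideal Zbar} {φ : AbsGal}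
    {f g : ℚ_[ℓ][X]} (h : R.IsLocalFactor Q φ f) (h' : R.IsLocalFactor Q φ g) : f = g := by
  obtain ⟨T, hT, rfl⟩ := h
  obtain ⟨T', hT', rfl⟩ := h'
  have : T = T' := by
    ext x
    rw [hT, hT']
  rw [this]

theorem localFactor_exists {ℓ : ℕ} [Fact ℓ.Prime] (R : GalRep ℓ) {p : ℕ} {Q : Ideal Zbar}
    {φ : AbsGal} (hQ : Above p Q) (hφ : IsFrob p Q φ) (hp : 0 < p) :
    ∃ f, R.IsLocalFactor Q φ f := by
  have hst : ∀ x ∈ R.inv Q, R.ρ φ x ∈ R.inv Q := by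
    intro x hx g hg
    have h1 : InInertia Q (φ⁻¹ * g * φ) := by
      rw [inertia_conj hQ hφ hp]
      have : φ * (φ⁻¹ * g * φ) * φ⁻¹ = g := by group
      rwa [this]
    have h2 := hx _ h1
    have h3 : R.ρ φ (R.ρ (φ⁻¹ * g * φ) x) = R.ρ g (R.ρ φ x) := by
      rw [← Module.End.mul_apply, ← map_mul, ← Module.End.mul_apply, ← map_mul]
      congr 2
      group
    rw [h2] at h3
    exact h3.symm
  exact ⟨_, (R.ρ φ).restrict hst, fun x => rfl, rfl⟩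

/-- the integrality and independence of `ℓ` of one local factor -/
theorem integral_factor (hI : S_INT) {ι : Type} [Fintype ι] [DecidableEq ι]
    (s : Finset ι) (b : ι → ℤ) (i₀ : ι) (hi₀ : i₀ ∈ s) (hb : b i₀ ≠ 0) (P : ι → ℤ[X])
    (hPc : ∀ i ∈ s, i ≠ i₀ → b i ≠ 0 → (P i).coeff 0 = 1) :
    ∃ P₀ : ℤ[X], ∀ (E : Type) [Field E] [CharZero E] (f : ι → E[X]),
      (∀ i ∈ s, i ≠ i₀ → b i ≠ 0 → f i = (P i).map (Int.castRingHom E)) → (f i₀).coeff 0 = 1 →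
      ∏ i ∈ s, f i ^ (b i).toNat = ∏ i ∈ s, f i ^ (-b i).toNat →
      f i₀ = P₀.map (Int.castRingHom E) := by
  -- products over the other indices
  set A : ℤ[X] := ∏ i ∈ s.erase i₀, P i ^ (b i).toNat with hA
  set B : ℤ[X] := ∏ i ∈ s.erase i₀, P i ^ (-b i).toNat with hB
  have hc : ∀ (c : ι → ℕ), (∀ i, b i = 0 → c i = 0) →
      (∏ i ∈ s.erase i₀, P i ^ c i).coeff 0 = 1 := by
    intro c hc
    rw [Polynomial.coeff_zero_eq_eval_zero, Polynomial.eval_prod]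
    refine Finset.prod_eq_one fun i hi => ?_
    rw [Polynomial.eval_pow]
    by_cases hbi : b i = 0
    · rw [hc i hbi, pow_zero]
    · rw [← Polynomial.coeff_zero_eq_eval_zero,
        hPc i (Finset.mem_of_mem_erase hi) (Finset.ne_of_mem_erase hi) hbi, one_pow]
  have hA0 : A.coeff 0 = 1 := hc _ fun i hi => by rw [hi]; rfl
  have hB0 : B.coeff 0 = 1 := hc _ fun i hi => by rw [hi]; rfl
  have hmap : ∀ (E : Type) [Field E] [CharZero E] (f : ι → E[X]),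
      (∀ i ∈ s, i ≠ i₀ → b i ≠ 0 → f i = (P i).map (Int.castRingHom E)) → ∀ (c : ι → ℕ),
      (∀ i, b i = 0 → c i = 0) → ∏ i ∈ s, f i ^ c i =
        f i₀ ^ c i₀ * (∏ i ∈ s.erase i₀, P i ^ c i).map (Int.castRingHom E) := by
    intro E _ _ f hf c hc
    rw [← Finset.mul_prod_erase s _ hi₀, Polynomial.map_prod]
    congr 1
    refine Finset.prod_congr rfl fun i hi => ?_
    by_cases hbi : b i = 0
    · rw [hc i hbi, pow_zero, pow_zero, Polynomial.map_one]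
    · rw [hf i (Finset.mem_of_mem_erase hi) (Finset.ne_of_mem_erase hi) hbi, Polynomial.map_pow]
  rcases lt_or_gt_of_ne hb with h | h
  · obtain ⟨P₀, hP₀⟩ := hI (-b i₀).toNat (by omega) A B hA0 hB0
    refine ⟨P₀, fun E _ _ f hf h0 hpr => hP₀ E (f i₀) h0 ?_⟩
    rw [hmap E f hf (fun i => (b i).toNat) (fun i hi => by simp [hi]),
      hmap E f hf (fun i => (-b i).toNat) (fun i hi => by simp [hi])] at hpr
    have h1 : (b i₀).toNat = 0 := by omega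
    simp only [h1, pow_zero, one_mul] at hpr
    exact hpr.symm
  · obtain ⟨P₀, hP₀⟩ := hI (b i₀).toNat (by omega) B A hB0 hA0
    refine ⟨P₀, fun E _ _ f hf h0 hpr => hP₀ E (f i₀) h0 ?_⟩
    rw [hmap E f hf (fun i => (b i).toNat) (fun i hi => by simp [hi]),
      hmap E f hf (fun i => (-b i).toNat) (fun i hi => by simp [hi])] at hpr
    have h1 : (-b i₀).toNat = 0 := by omega
    simp only [h1, pow_zero, one_mul] at hpr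
    exact hpr

theorem fin898 (hP : S_PROJ) (hD : S_DET) (hS : S_SUB) (hE : S_EXT) (hF : S_FAC)
    (hR : S_ROOT) (hG : S_RING) (hI : S_INT) {ι : Type} [Fintype ι]
    (R : ∀ (ℓ : ℕ) [Fact ℓ.Prime], ι → GalRep ℓ) (w b : ι → ℤ)
    (hw : ∀ (ℓ : ℕ) [Fact ℓ.Prime] (i : ι), (R ℓ i).IsPure (w i))
    (hb : ∀ (ℓ : ℕ) [Fact ℓ.Prime], ∃ B : Set ℕ, Thin B ∧ ∀ q, q.Prime → q ∉ B → ∀ Q φ,
      Above q Q → IsFrob q Q φ → ∑ i, (b i : ℚ_[ℓ]) * (R ℓ i).tr φ = 0)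
    {p : ℕ} (hp : p.Prime) {Q : Ideal Zbar} {φ : AbsGal} (hQ : Above p Q) (hφ : IsFrob p Q φ)
    (t : ∀ (ℓ : ℕ) [Fact ℓ.Prime], AbsGal → ℚ_[ℓ])
    (ht : ∀ (ℓ : ℕ) [Fact ℓ.Prime], ℓ ≠ p → IsTame p Q φ (t ℓ))
    (N : ∀ (ℓ : ℕ) [Fact ℓ.Prime] (i : ι), Module.End ℚ_[ℓ] (R ℓ i).V)
    (hN : ∀ (ℓ : ℕ) [Fact ℓ.Prime], ℓ ≠ p → ∀ i, (R ℓ i).IsMonodromy Q (t ℓ) (N ℓ i)) (m : ℤ)
    (hg : ∀ (ℓ : ℕ) [Fact ℓ.Prime], ℓ ≠ p → ∀ i, w i = m → b i < 0 →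
      MWPure p ((R ℓ i).ρ φ) (N ℓ i) m ∧ (R ℓ i).MeanWeight p φ m) :
    (∀ (ℓ : ℕ) [Fact ℓ.Prime], ℓ ≠ p → ∀ i, w i = m → 0 < b i →
      MWPure p ((R ℓ i).ρ φ) (N ℓ i) m) ∧
    (∀ (ℓ : ℕ) [Fact ℓ.Prime], ℓ ≠ p → ∀ f : ι → ℚ_[ℓ][X],
      (∀ i, w i = m → (R ℓ i).IsLocalFactor Q φ (f i)) →
      ∏ i with w i = m, f i ^ (b i).toNat = ∏ i with w i = m, f i ^ (-b i).toNat) ∧
    ∀ i₀, w i₀ = m → b i₀ ≠ 0 →
      (∀ i, w i = m → i ≠ i₀ → b i ≠ 0 → ∃ P : ℤ[X], ∀ (ℓ : ℕ) [Fact ℓ.Prime], ℓ ≠ p →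
        (R ℓ i).IsLocalFactor Q φ (P.map (Int.castRingHom ℚ_[ℓ]))) →
      ∃ P : ℤ[X], ∀ (ℓ : ℕ) [Fact ℓ.Prime], ℓ ≠ p →
        (R ℓ i₀).IsLocalFactor Q φ (P.map (Int.castRingHom ℚ_[ℓ])) := by
  classical
  have hmain : ∀ (ℓ : ℕ) [Fact ℓ.Prime], ℓ ≠ p →
      (∀ i, w i = m → 0 < b i → MWPure p ((R ℓ i).ρ φ) (N ℓ i) m) ∧
      ∀ f : ι → ℚ_[ℓ][X], (∀ i, w i = m → (R ℓ i).IsLocalFactor Q φ (f i)) →
        ∏ i with w i = m, f i ^ (b i).toNat = ∏ i with w i = m, f i ^ (-b i).toNat := by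
    intro ℓ _ hℓ
    obtain ⟨B, hB, hb'⟩ := hb ℓ
    exact main_local hP hD hS hE hF hR hG (R ℓ) w b (hw ℓ) hB hb' hp hQ hφ (ht ℓ hℓ) (N ℓ)
      (hN ℓ hℓ) m (hg ℓ hℓ)
  refine ⟨fun ℓ _ hℓ => (hmain ℓ hℓ).1, fun ℓ _ hℓ => (hmain ℓ hℓ).2, ?_⟩
  intro i₀ hi₀ hb₀ hP'
  choose! P hPP using hP'
  -- a prime different from `p`
  obtain ⟨ℓ₀, hℓ₀, hℓ₀p⟩ : ∃ ℓ₀ : ℕ, ∃ _ : Fact ℓ₀.Prime, ℓ₀ ≠ p := by
    by_cases h2 : p = 2
    · exact ⟨3, ⟨Nat.prime_three⟩, by omega⟩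
    · exact ⟨2, ⟨Nat.prime_two⟩, fun h => h2 h.symm⟩
  have hPc : ∀ i ∈ Finset.univ.filter (fun i => w i = m), i ≠ i₀ → b i ≠ 0 →
      (P i).coeff 0 = 1 := by
    intro i hi hne hbi
    have h1 := localFactor_coeff_zero (hPP i (Finset.mem_filter.1 hi).2 hne hbi ℓ₀ hℓ₀p)
    rw [Polynomial.coeff_map, eq_intCast] at h1
    exact_mod_cast h1
  obtain ⟨P₀, hP₀⟩ := integral_factor hI (Finset.univ.filter fun i => w i = m) b i₀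
    (by simp [hi₀]) hb₀ P hPc
  refine ⟨P₀, fun ℓ _ hℓ => ?_⟩
  obtain ⟨f, hf⟩ : ∃ f : ι → ℚ_[ℓ][X], ∀ i, (R ℓ i).IsLocalFactor Q φ (f i) := by
    choose f hf using fun i => localFactor_exists (R ℓ i) hQ hφ hp.pos
    exact ⟨f, hf⟩
  have h1 := hP₀ ℚ_[ℓ] f
    (fun i hi hne hbi => localFactor_unique (hf i) (hPP i (Finset.mem_filter.1 hi).2 hne hbi ℓ hℓ))
    (localFactor_coeff_zero (hf i₀)) ((hmain ℓ hℓ).2 f fun i _ => hf i)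
  rw [← h1]
  exact hf i₀

end Pool.Agent.U707.PT
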