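import Pool.Agent.U707.PT.LFun

/-! Motives and varieties. -/

set_option autoImplicit false

open Polynomial Module NumberField

namespace Pool.Agent.U707.PT

/-- `R` has a monodromy operator at `Q` (with respect to the tame character `t`), for which it is mw
pure of weight `w`, and all the stable subspaces have the mean weight `w`. -/
def GalRep.Good {ℓ : ℕ} [Fact ℓ.Prime] (R : GalRep ℓ) (p : ℕ) (Q : Ideal Zbar) (φ : AbsGal)
    (t : AbsGal → ℚ_[ℓ]) (w : ℤ) : Prop :=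
  ∃ N, R.IsMonodromy Q t N ∧ MWPure p (R.ρ φ) N w ∧ R.MeanWeight p φ w

/-- `R` satisfies the monodromy-weight conjecture (weight `w`) at `Q`. -/
def GalRep.MonodromyWeight {ℓ : ℕ} [Fact ℓ.Prime] (R : GalRep ℓ) (p : ℕ) (Q : Ideal Zbar)
    (φ : AbsGal) (t : AbsGal → ℚ_[ℓ]) (w : ℤ) : Prop :=
  ∃ N, R.IsMonodromy Q t N ∧ MWPure p (R.ρ φ) N w

/-- one representation on the left hand side -/
theorem local_one (hP : S_PROJ) (hD : S_DET) (hS : S_SUB) (hE : S_EXT) (hF : S_FAC)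
    (hR : S_ROOT) (hG : S_RING) {ℓ : ℕ} [Fact ℓ.Prime] {μ κ : Type} [Fintype μ] [Fintype κ]
    (H : μ → GalRep ℓ) (W : κ → GalRep ℓ) (u : μ → ℤ) (w : κ → ℤ) (ε : μ → ℤ) (d : κ → ℤ)
    (hu : Function.Injective u) (hε : ∀ i, ε i * ε i = 1)
    (hH : ∀ i, (H i).IsPure (u i)) (hW : ∀ j, (W j).IsPure (w j)) {B : Set ℕ} (hB : Thin B)
    (htr : ∀ q, q.Prime → q ∉ B → ∀ Q φ, Above q Q → IsFrob q Q φ →
      ∑ i, (ε i : ℚ_[ℓ]) * (H i).tr φ = ∑ j, (d j : ℚ_[ℓ]) * (W j).tr φ)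
    {p : ℕ} (hp : p.Prime) {Q : Ideal Zbar} {φ : AbsGal} (hQ : Above p Q) (hφ : IsFrob p Q φ)
    {t : AbsGal → ℚ_[ℓ]} (ht : IsTame p Q φ t) (hHN : ∀ i, ∃ N, (H i).IsMonodromy Q t N)
    (hWN : ∀ j, ∃ N, (W j).IsMonodromy Q t N) (i₀ : μ)
    (hg : ∀ j, w j = u i₀ → 0 < ε i₀ * d j → (W j).Good p Q φ t (w j)) :
    (H i₀).MonodromyWeight p Q φ t (u i₀) ∧ ∀ (f : ℚ_[ℓ][X]) (g : κ → ℚ_[ℓ][X]),
      (H i₀).IsLocalFactor Q φ f → (∀ j, w j = u i₀ → (W j).IsLocalFactor Q φ (g j)) →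
      f * ∏ j with w j = u i₀, g j ^ (-(ε i₀ * d j)).toNat =
        ∏ j with w j = u i₀, g j ^ (ε i₀ * d j).toNat := by
  classical
  set c : κ → ℤ := fun j => ε i₀ * d j with hc
  -- the monodromy operators
  have hWN' : ∀ j, ∃ N, (W j).IsMonodromy Q t N ∧ (w j = u i₀ → 0 < c j →
      MWPure p ((W j).ρ φ) N (w j) ∧ (W j).MeanWeight p φ (w j)) := by
    intro j
    by_cases hj : w j = u i₀ ∧ 0 < c j
    · obtain ⟨N, h1, h2⟩ := hg j hj.1 hj.2
      exact ⟨N, h1, fun _ _ => h2⟩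
    · obtain ⟨N, h1⟩ := hWN j
      exact ⟨N, h1, fun h2 h3 => absurd ⟨h2, h3⟩ hj⟩
  choose NH hNH using hHN
  choose NW hNW hNWg using hWN'
  -- the family
  set s : ℤ := ε i₀ with hs
  have hss : s * s = 1 := hε i₀
  set R : μ ⊕ κ → GalRep ℓ := Sum.elim H W with hRd
  set wt' : μ ⊕ κ → ℤ := Sum.elim u w with hwt'
  set b : μ ⊕ κ → ℤ := Sum.elim (fun i => s * ε i) (fun j => -c j) with hb
  have hpure : ∀ x, (R x).IsPure (wt' x) := by
    rintro (i | j)
    · exact hH i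
    · exact hW j
  have hsum : ∀ q, q.Prime → q ∉ B → ∀ Q φ, Above q Q → IsFrob q Q φ →
      ∑ x, (b x : ℚ_[ℓ]) * (R x).tr φ = 0 := by
    intro q hq hqB Q' φ' hQ' hφ'
    have h1 := htr q hq hqB Q' φ' hQ' hφ'
    rw [Fintype.sum_sum_type]
    have h2 : ∑ i, (b (Sum.inl i) : ℚ_[ℓ]) * (R (Sum.inl i)).tr φ' =
        (s : ℚ_[ℓ]) * ∑ i, (ε i : ℚ_[ℓ]) * (H i).tr φ' := by
      rw [Finset.mul_sum]
      refine Finset.sum_congr rfl fun i _ => ?_
      simp only [hb, hRd, Sum.elim_inl]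
      push_cast
      ring
    have h3 : ∑ j, (b (Sum.inr j) : ℚ_[ℓ]) * (R (Sum.inr j)).tr φ' =
        -((s : ℚ_[ℓ]) * ∑ j, (d j : ℚ_[ℓ]) * (W j).tr φ') := by
      rw [Finset.mul_sum, ← Finset.sum_neg_distrib]
      refine Finset.sum_congr rfl fun j _ => ?_
      simp only [hb, hRd, hc, Sum.elim_inr]
      push_cast
      ring
    rw [h2, h3, h1]
    ring
  set N : ∀ x, Module.End ℚ_[ℓ] (R x).V := fun x => match x with
    | Sum.inl i => NH i
    | Sum.inr j => NW j with hN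
  have hbl : b (Sum.inl i₀) = 1 := by
    simp only [hb, Sum.elim_inl]
    exact hss
  have hbr : ∀ j, w j = u i₀ → b (Sum.inr j) = -c j := by
    intro j _
    simp only [hb, Sum.elim_inr]
  obtain ⟨k1, k2⟩ := main_local hP hD hS hE hF hR hG R wt' b hpure hB hsum hp hQ hφ ht N (by
      rintro (i | j)
      · exact hNH i
      · exact hNW j) (u i₀) (by
      rintro (i | j) h1 h2
      · exfalso
        simp only [hwt', Sum.elim_inl] at h1
        rw [hu h1, hbl] at h2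
        omega
      · simp only [hwt', Sum.elim_inr] at h1
        rw [hbr j h1] at h2
        have h3 := hNWg j h1 (by omega)
        rw [← h1]
        exact h3)
  refine ⟨⟨NH i₀, hNH i₀, k1 (Sum.inl i₀) rfl (by rw [hbl]; norm_num)⟩, ?_⟩
  intro f g hf hg'
  have k3 := k2 (fun x => match x with
    | Sum.inl _ => f
    | Sum.inr j => g j) (by
      rintro (i | j) h1
      · simp only [hwt', Sum.elim_inl] at h1
        rw [hu h1]
        exact hf
      · simp only [hwt', Sum.elim_inr] at h1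
        exact hg' j h1)
  rw [Finset.prod_filter, Finset.prod_filter, Fintype.prod_sum_type, Fintype.prod_sum_type] at k3
  have e1 : ∏ i : μ, (if wt' (Sum.inl i) = u i₀ then f ^ (b (Sum.inl i)).toNat else 1) =
      f := by
    rw [Finset.prod_eq_single i₀]
    · have h1 : wt' (Sum.inl i₀) = u i₀ := rfl
      rw [if_pos h1, hbl]
      simp
    · intro i _ hi
      rw [if_neg]
      intro h1
      simp only [hwt', Sum.elim_inl] at h1
      exact hi (hu h1)
    · intro h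
      exact absurd (Finset.mem_univ _) h
  have e2 : ∏ i : μ, (if wt' (Sum.inl i) = u i₀ then f ^ (-b (Sum.inl i)).toNat else 1) =
      1 := by
    refine Finset.prod_eq_one fun i _ => ?_
    split_ifs with h1
    · simp only [hwt', Sum.elim_inl] at h1
      rw [hu h1, hbl]
      simp
    · rfl
  have e3 : ∏ j : κ, (if wt' (Sum.inr j) = u i₀ then g j ^ (b (Sum.inr j)).toNat else 1) =
      ∏ j with w j = u i₀, g j ^ (-c j).toNat := by
    rw [Finset.prod_filter]
    refine Finset.prod_congr rfl fun j _ => ?_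
    simp only [hwt', Sum.elim_inr]
    by_cases h1 : w j = u i₀
    · rw [if_pos h1, if_pos h1, hbr j h1]
    · rw [if_neg h1, if_neg h1]
  have e4 : ∏ j : κ, (if wt' (Sum.inr j) = u i₀ then g j ^ (-b (Sum.inr j)).toNat else 1) =
      ∏ j with w j = u i₀, g j ^ (c j).toNat := by
    rw [Finset.prod_filter]
    refine Finset.prod_congr rfl fun j _ => ?_
    simp only [hwt', Sum.elim_inr]
    by_cases h1 : w j = u i₀
    · rw [if_pos h1, if_pos h1, hbr j h1, neg_neg]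
    · rw [if_neg h1, if_neg h1]
  have k4 : (∏ i : μ, (if wt' (Sum.inl i) = u i₀ then f ^ (b (Sum.inl i)).toNat else 1)) *
      (∏ j : κ, (if wt' (Sum.inr j) = u i₀ then g j ^ (b (Sum.inr j)).toNat else 1)) =
      (∏ i : μ, (if wt' (Sum.inl i) = u i₀ then f ^ (-b (Sum.inl i)).toNat else 1)) *
      (∏ j : κ, (if wt' (Sum.inr j) = u i₀ then g j ^ (-b (Sum.inr j)).toNat else 1)) := k3
  rw [e1, e2, e3, e4, one_mul] at k4
  exact k4

end Pool.Agent.U707.PT
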