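import Pool.Agent.U707.PT.Stm

/-!
# `ℓ`-adic representations of the Galois group of `ℚ`: definitions
-/

set_option autoImplicit false

open Polynomial Module NumberField

namespace Pool.Agent.U707.PT

/-- The absolute Galois group of the field `K`, with the Krull topology. -/
abbrev GalOf (K : Type) [Field K] : Type := Gal(AlgebraicClosure K/K)

/-- The absolute Galois group of `ℚ`. -/
abbrev AbsGal : Type := GalOf ℚ

/-- The ring of all algebraic integers. -/
abbrev Zbar : Type := 𝓞 (AlgebraicClosure ℚ)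

/-- `Q` is a maximal ideal of the ring of all algebraic integers which contains `p`. -/
def Above (p : ℕ) (Q : Ideal Zbar) : Prop := Q.IsMaximal ∧ (p : Zbar) ∈ Q

/-- `φ` is a geometric Frobenius element at `Q`: its inverse induces `x ↦ x ^ p` on the residue
field of `Q`. -/
def IsFrob (p : ℕ) (Q : Ideal Zbar) (φ : AbsGal) : Prop := ∀ x : Zbar, φ⁻¹ • x - x ^ p ∈ Q

/-- `g` belongs to the inertia group at `Q`. -/
def InInertia (Q : Ideal Zbar) (g : AbsGal) : Prop := ∀ x : Zbar, g • x - x ∈ Q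

/-- The set `B` of primes has density zero: for `ε > 0` it contains at most `ε π(x)` primes up to
`x`, for all large `x`. -/
def Thin (B : Set ℕ) : Prop := ∀ ε : ℝ, 0 < ε → ∀ᶠ x : ℕ in Filter.atTop,
  ({p : ℕ | p ≤ x ∧ p.Prime ∧ p ∈ B}.ncard : ℝ) ≤ ε * Nat.primeCounting x

/-- A continuous finite dimensional `ℓ`-adic representation of the Galois group of `ℚ`. -/
structure GalRep (ℓ : ℕ) [Fact ℓ.Prime] where
  /-- the space -/
  V : Type
  [addCommGroup : AddCommGroup V]
  [module : Module ℚ_[ℓ] V]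
  [finite : FiniteDimensional ℚ_[ℓ] V]
  /-- the action -/
  ρ : AbsGal →* Module.End ℚ_[ℓ] V
  cont : ∀ (x : V) (f : Module.Dual ℚ_[ℓ] V), Continuous fun g => f (ρ g x)

attribute [instance] GalRep.addCommGroup GalRep.module GalRep.finite

/-- `t` is an `ℓ`-adic tame character at `Q`: a nonzero homomorphism from the inertia group at `Q` to
`ℚ_ℓ` with `t(φ g φ⁻¹) = t(g) / p` for the geometric Frobenius element `φ`. -/
structure IsTame {ℓ : ℕ} [Fact ℓ.Prime] (p : ℕ) (Q : Ideal Zbar) (φ : AbsGal)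
    (t : AbsGal → ℚ_[ℓ]) : Prop where
  add : ∀ g h, InInertia Q g → InInertia Q h → t (g * h) = t g + t h
  conj : ∀ g, InInertia Q g → t (φ * g * φ⁻¹) = (p : ℚ_[ℓ])⁻¹ * t g
  ne_zero : ∃ g, InInertia Q g ∧ t g ≠ 0

section
variable {ℓ : ℕ} [Fact ℓ.Prime] (R : GalRep ℓ)

/-- the trace of `g` -/
noncomputable def GalRep.tr (g : AbsGal) : ℚ_[ℓ] := LinearMap.trace ℚ_[ℓ] R.V (R.ρ g)

/-- `R` is pure of weight `w`: at almost all primes `p` the eigenvalues of the Frobenius elements
are algebraic numbers all of whose complex conjugates have the absolute value `p ^ (w / 2)`. -/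
def GalRep.IsPure (w : ℤ) : Prop :=
  ∃ B : Set ℕ, B.Finite ∧ ∀ p, p.Prime → p ∉ B → ∀ Q φ, Above p Q → IsFrob p Q φ →
    wt p (R.ρ φ) w = ⊤

/-- `N` is the monodromy operator of `R` at `Q`: it is nilpotent, and `g = exp(t(g) N)` on `R` for
the elements `g` of an open subgroup of the inertia group at `Q`. -/
def GalRep.IsMonodromy (Q : Ideal Zbar) (t : AbsGal → ℚ_[ℓ]) (N : Module.End ℚ_[ℓ] R.V) : Prop :=
  IsNilpotent N ∧ ∃ U : Subgroup AbsGal, IsOpen (U : Set AbsGal) ∧
    ∀ g, InInertia Q g → g ∈ U → R.ρ g = expN (t g • N)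

/-- Every subspace of `R` which is stable under the Galois group of `ℚ` has the mean weight `m`
with respect to the Frobenius element `φ` at `p`. -/
def GalRep.MeanWeight (p : ℕ) (φ : AbsGal) (m : ℤ) : Prop :=
  ∀ W : Submodule ℚ_[ℓ] R.V, (∀ g, W ≤ W.comap (R.ρ g)) →
    ∑ᶠ c : ℤ, (c - m) * (finrank ℚ_[ℓ] (W ⊓ wt p (R.ρ φ) c : Submodule ℚ_[ℓ] R.V) : ℤ) = 0

/-- the vectors which are fixed by the inertia group at `Q` -/
def GalRep.inv (Q : Ideal Zbar) : Submodule ℚ_[ℓ] R.V where
  carrier := {x | ∀ g, InInertia Q g → R.ρ g x = x}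
  zero_mem' := fun g _ => map_zero _
  add_mem' := fun hx hy g hg => by rw [map_add, hx g hg, hy g hg]
  smul_mem' := fun c x hx g hg => by rw [map_smul, hx g hg]

/-- `f = det (1 - φ T)` for the action of `φ` on the vectors fixed by the inertia group at `Q`; the
reverse of the characteristic polynomial `det (T - φ)` is `det (1 - φ T)`. -/
def GalRep.IsLocalFactor (Q : Ideal Zbar) (φ : AbsGal) (f : ℚ_[ℓ][X]) : Prop :=
  ∃ T : Module.End ℚ_[ℓ] (R.inv Q), (∀ x, ((T x : R.inv Q) : R.V) = R.ρ φ x) ∧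
    f = T.charpoly.reverse

end

end Pool.Agent.U707.PT
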