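import Pool.Agent.U707.PT.Ana
import Pool.Agent.W571.FM.Frob

/-! Motives and varieties: all primes. -/

set_option autoImplicit false

open Polynomial Module NumberField

namespace Pool.Agent.U707.PT

theorem exists_above {p : ℕ} (hp : p.Prime) :
    ∃ (Q : Ideal Zbar) (φ : AbsGal), Above p Q ∧ IsFrob p Q φ := by
  obtain ⟨⟨Q, hQ, hpQ, σ, hσ⟩, -⟩ := Pool.Agent.W571.FM.main p hp
  exact ⟨Q, σ⁻¹, ⟨hQ, hpQ⟩, fun x => by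
    rw [inv_inv]
    exact hσ x⟩

theorem exists_prime_ne (p : ℕ) : ∃ ℓ : ℕ, ∃ _ : Fact ℓ.Prime, ℓ ≠ p := by
  by_cases h2 : p = 2
  · exact ⟨3, ⟨Nat.prime_three⟩, by omega⟩
  · exact ⟨2, ⟨Nat.prime_two⟩, fun h => h2 h.symm⟩

theorem coeff_zero_of_map {ℓ : ℕ} [Fact ℓ.Prime] {R : GalRep ℓ} {Q : Ideal Zbar} {φ : AbsGal}
    {f : ℚ[X]} (h : R.IsLocalFactor Q φ (f.map (algebraMap ℚ ℚ_[ℓ]))) : f.coeff 0 = 1 := by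
  have h1 := localFactor_coeff_zero h
  rw [Polynomial.coeff_map] at h1
  exact (algebraMap ℚ ℚ_[ℓ]).injective (h1.trans (map_one _).symm)

/-- all primes -/
theorem glob {μ κ : Type} [Fintype μ] [Fintype κ]
    (H : ∀ (ℓ : ℕ) [Fact ℓ.Prime], μ → GalRep ℓ) (W : ∀ (ℓ : ℕ) [Fact ℓ.Prime], κ → GalRep ℓ)
    (u : μ → ℤ) (w : κ → ℤ) (ε : μ → ℤ) (d : κ → ℤ)
    (hu : Function.Injective u) (hε : ∀ i, ε i * ε i = 1)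
    (hH : ∀ (ℓ : ℕ) [Fact ℓ.Prime] i, (H ℓ i).IsPure (u i))
    (hW : ∀ (ℓ : ℕ) [Fact ℓ.Prime] j, (W ℓ j).IsPure (w j))
    (htr : ∀ (ℓ : ℕ) [Fact ℓ.Prime], ∃ B : Set ℕ, Thin B ∧ ∀ q, q.Prime → q ∉ B → ∀ Q φ,
      Above q Q → IsFrob q Q φ →
      ∑ i, (ε i : ℚ_[ℓ]) * (H ℓ i).tr φ = ∑ j, (d j : ℚ_[ℓ]) * (W ℓ j).tr φ)
    (R : κ → ℕ → ℚ[X]) (i₀ : μ)
    (hloc : ∀ p, p.Prime → ∀ Q φ, Above p Q → IsFrob p Q φ → ∀ (ℓ : ℕ) [Fact ℓ.Prime], ℓ ≠ p →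
      ∃ t, IsTame p Q φ t ∧ (∀ i, ∃ N, (H ℓ i).IsMonodromy Q t N) ∧
        ∀ j, (∃ N, (W ℓ j).IsMonodromy Q t N) ∧
          (W ℓ j).IsLocalFactor Q φ ((R j p).map (algebraMap ℚ ℚ_[ℓ])) ∧
          (w j = u i₀ → 0 < ε i₀ * d j → (W ℓ j).Good p Q φ t (w j))) :
    ∃ P : ℕ → ℚ[X],
      (∀ p, p.Prime → ∀ Q φ, Above p Q → IsFrob p Q φ → ∀ (ℓ : ℕ) [Fact ℓ.Prime], ℓ ≠ p →
        (H ℓ i₀).IsLocalFactor Q φ ((P p).map (algebraMap ℚ ℚ_[ℓ])) ∧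
        ∃ t, IsTame p Q φ t ∧ (H ℓ i₀).MonodromyWeight p Q φ t (u i₀)) ∧
      ∀ p, p.Prime → P p * ∏ j with w j = u i₀, R j p ^ (-(ε i₀ * d j)).toNat =
        ∏ j with w j = u i₀, R j p ^ (ε i₀ * d j).toNat := by
  classical
  -- one place and one `ℓ`
  have key : ∀ p, p.Prime → ∃ P : ℚ[X], ∀ Q φ, Above p Q → IsFrob p Q φ →
      ∀ (ℓ : ℕ) [Fact ℓ.Prime], ℓ ≠ p →
      (H ℓ i₀).IsLocalFactor Q φ (P.map (algebraMap ℚ ℚ_[ℓ])) ∧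
        (∃ t, IsTame p Q φ t ∧ (H ℓ i₀).MonodromyWeight p Q φ t (u i₀)) ∧
        P * ∏ j with w j = u i₀, R j p ^ (-(ε i₀ * d j)).toNat =
          ∏ j with w j = u i₀, R j p ^ (ε i₀ * d j).toNat := by
    intro p hp
    obtain ⟨Q₀, φ₀, hQ₀, hφ₀⟩ := exists_above hp
    obtain ⟨ℓ₀, hℓ₀, hℓ₀p⟩ := exists_prime_ne p
    have hc : ∀ j, (R j p).coeff 0 = 1 := by
      intro j
      obtain ⟨t, -, -, h3⟩ := hloc p hp Q₀ φ₀ hQ₀ hφ₀ ℓ₀ hℓ₀p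
      exact coeff_zero_of_map (h3 j).2.1
    obtain ⟨P, hP⟩ := quot_factor (κ := {j // w j = u i₀}) (fun j => R j p)
      (fun j => ε i₀ * d j) (fun j _ => hc j)
    refine ⟨P, ?_⟩
    intro Q φ hQ hφ ℓ _ hℓ
    obtain ⟨t, ht, hHN, hWN⟩ := hloc p hp Q φ hQ hφ ℓ hℓ
    obtain ⟨B, hB, hB'⟩ := htr ℓ
    obtain ⟨h1, h2⟩ := local_gen (H ℓ) (W ℓ) u w ε d hu hε (hH ℓ) (hW ℓ) hB hB' hp hQ hφ ht hHN
      (fun j => (hWN j).1) i₀ (fun j => (hWN j).2.2)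
    obtain ⟨f, hf⟩ := localFactor_exists (H ℓ i₀) hQ hφ hp.pos
    have h3 := h2 f (fun j => (R j p).map (algebraMap ℚ ℚ_[ℓ])) hf (fun j _ => (hWN j).2.1)
    have e1 : ∀ (E : Type) [CommRing E] (g : κ → E), ∏ j with w j = u i₀, g j =
        ∏ j : {j // w j = u i₀}, g j := by
      intro E _ g
      exact Finset.prod_subtype _ (fun j => by simp) g
    rw [e1, e1] at h3
    obtain ⟨h4, h5⟩ := hP ℚ_[ℓ] f h3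
    refine ⟨?_, ⟨t, ht, h1⟩, ?_⟩
    · rw [← h4]
      exact hf
    · rw [e1, e1]
      exact h5
  choose! P hP using key
  refine ⟨P, fun p hp Q φ hQ hφ ℓ _ hℓ => ?_, fun p hp => ?_⟩
  · obtain ⟨h1, h2, -⟩ := hP p hp Q φ hQ hφ ℓ hℓ
    exact ⟨h1, h2⟩
  · obtain ⟨Q₀, φ₀, hQ₀, hφ₀⟩ := exists_above hp
    obtain ⟨ℓ₀, hℓ₀, hℓ₀p⟩ := exists_prime_ne p
    exact (hP p hp Q₀ φ₀ hQ₀ hφ₀ ℓ₀ hℓ₀p).2.2

end Pool.Agent.U707.PT
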