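import Pool.Agent.U707.PT.Fin

/-! Euler products. -/

set_option autoImplicit false

open Polynomial Module NumberField

namespace Pool.Agent.U707.PT

/-- `L(s) = ∏ P_p(p ^ (-s))⁻¹` for `Re s > σ`, the product over the primes being convergent (to a
number different from zero). -/
def IsLFunction (P : ℕ → ℚ[X]) (σ : ℝ) (L : ℂ → ℂ) : Prop :=
  ∀ s : ℂ, σ < s.re → L s ≠ 0 ∧
    HasProd (fun p : Nat.Primes => aeval ((p : ℂ) ^ (-s)) (P p)) (L s)⁻¹

theorem hasProd_ne_zero {α : Type} {f : α → ℂ} {a : ℂ} (h : HasProd f a) (ha : a ≠ 0) (x : α) :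
    f x ≠ 0 := by
  intro hx
  apply ha
  refine tendsto_nhds_unique h ?_
  refine tendsto_const_nhds.congr' ?_
  filter_upwards [Filter.eventually_ge_atTop ({x} : Finset α)] with s hs
  exact (Finset.prod_eq_zero (hs (Finset.mem_singleton_self x)) hx).symm

theorem hasProd_inv {α : Type} {f : α → ℂ} {a : ℂ} (h : HasProd f a) (ha : a ≠ 0) :
    HasProd (fun x => (f x)⁻¹) a⁻¹ := by
  have h1 := Filter.Tendsto.inv₀ h ha
  refine h1.congr fun s => ?_
  rw [Finset.prod_inv_distrib]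

theorem hasProd_zpow {α : Type} {f : α → ℂ} {a : ℂ} (h : HasProd f a) (ha : a ≠ 0) (c : ℤ) :
    HasProd (fun x => f x ^ c) (a ^ c) := by
  obtain ⟨n, rfl | rfl⟩ := c.eq_nat_or_neg
  · simp only [zpow_natCast]
    exact h.pow n
  · simp only [zpow_neg, zpow_natCast]
    exact hasProd_inv (h.pow n) (pow_ne_zero _ ha)

theorem isLFunction_prod {κ : Type} [Fintype κ] (P : ℕ → ℚ[X]) (R : κ → ℕ → ℚ[X]) (c : κ → ℤ)
    (hrel : ∀ p : ℕ, p.Prime →
      P p * ∏ j, R j p ^ (-c j).toNat = ∏ j, R j p ^ (c j).toNat)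
    (σ : ℝ) (L : κ → ℂ → ℂ) (hL : ∀ j, IsLFunction (R j) σ (L j)) :
    IsLFunction P σ (fun s => ∏ j, L j s ^ c j) := by
  classical
  intro s hs
  have h0 : ∀ j, L j s ≠ 0 := fun j => (hL j s hs).1
  refine ⟨Finset.prod_ne_zero_iff.2 fun j _ => zpow_ne_zero _ (h0 j), ?_⟩
  have h1 : ∀ j, HasProd (fun p : Nat.Primes => aeval ((p : ℂ) ^ (-s)) (R j p) ^ c j)
      ((L j s)⁻¹ ^ c j) := fun j => hasProd_zpow (hL j s hs).2 (inv_ne_zero (h0 j)) _
  have h2 : HasProd (fun p : Nat.Primes => ∏ j, aeval ((p : ℂ) ^ (-s)) (R j p) ^ c j)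
      (∏ j, (L j s)⁻¹ ^ c j) := hasProd_prod fun j _ => h1 j
  have h3 : (∏ j, L j s ^ c j)⁻¹ = ∏ j, (L j s)⁻¹ ^ c j := by
    rw [← Finset.prod_inv_distrib]
    exact Finset.prod_congr rfl fun j _ => (inv_zpow _ _).symm
  rw [h3]
  convert h2 using 1
  funext p
  have hne : ∀ j, aeval ((p : ℂ) ^ (-s)) (R j p) ≠ 0 := fun j =>
    hasProd_ne_zero (hL j s hs).2 (inv_ne_zero (h0 j)) p
  have h4 := congrArg (aeval ((p : ℂ) ^ (-s))) (hrel p p.2)
  rw [map_mul, map_prod, map_prod] at h4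
  simp only [map_pow] at h4
  have h5 : ∀ j, aeval ((p : ℂ) ^ (-s)) (R j p) ^ c j =
      aeval ((p : ℂ) ^ (-s)) (R j p) ^ (c j).toNat *
        (aeval ((p : ℂ) ^ (-s)) (R j p) ^ (-c j).toNat)⁻¹ := by
    intro j
    rw [← zpow_natCast, ← zpow_natCast, ← zpow_neg, ← zpow_add₀ (hne j)]
    congr 1
    omega
  simp only [h5]
  rw [Finset.prod_mul_distrib, Finset.prod_inv_distrib, ← h4, mul_assoc,
    mul_inv_cancel₀, mul_one]
  exact Finset.prod_ne_zero_iff.2 fun j _ => pow_ne_zero _ (hne j)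

/-- a rational polynomial which describes the quotient -/
theorem quot_factor {κ : Type} [Fintype κ] (R : κ → ℚ[X]) (c : κ → ℤ)
    (hR : ∀ j, c j ≠ 0 → (R j).coeff 0 = 1) : ∃ P : ℚ[X], ∀ (E : Type) [Field E] [CharZero E]
      (f : E[X]), f * ∏ j, (R j).map (algebraMap ℚ E) ^ (-c j).toNat =
        ∏ j, (R j).map (algebraMap ℚ E) ^ (c j).toNat → f = P.map (algebraMap ℚ E) ∧
        P * ∏ j, R j ^ (-c j).toNat = ∏ j, R j ^ (c j).toNat := by
  classical
  set A : ℚ[X] := ∏ j, R j ^ (c j).toNat with hA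
  set B : ℚ[X] := ∏ j, R j ^ (-c j).toNat with hB
  have hB0 : B ≠ 0 := by
    intro h
    have h1 : B.eval 0 = 1 := by
      rw [hB, Polynomial.eval_prod]
      refine Finset.prod_eq_one fun j _ => ?_
      rw [Polynomial.eval_pow]
      by_cases hj : c j = 0
      · simp [hj]
      · rw [← Polynomial.coeff_zero_eq_eval_zero, hR j hj, one_pow]
    rw [h, Polynomial.eval_zero] at h1
    exact zero_ne_one h1
  refine ⟨A / B, fun E _ _ f hf => ?_⟩
  have hAm : ∏ j, (R j).map (algebraMap ℚ E) ^ (c j).toNat = A.map (algebraMap ℚ E) := by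
    rw [hA, Polynomial.map_prod]
    exact Finset.prod_congr rfl fun j _ => (Polynomial.map_pow _ _).symm
  have hBm : ∏ j, (R j).map (algebraMap ℚ E) ^ (-c j).toNat = B.map (algebraMap ℚ E) := by
    rw [hB, Polynomial.map_prod]
    exact Finset.prod_congr rfl fun j _ => (Polynomial.map_pow _ _).symm
  rw [hAm, hBm] at hf
  have hdvd : B ∣ A := by
    rw [← Polynomial.map_dvd_map' (algebraMap ℚ E), ← hf]
    exact Dvd.intro_left _ rfl
  have hdiv : A / B * B = A := by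
    rw [mul_comm]
    exact EuclideanDomain.mul_div_cancel' hB0 hdvd
  refine ⟨?_, hdiv⟩
  have hBE : B.map (algebraMap ℚ E) ≠ 0 := by
    rwa [Ne, Polynomial.map_eq_zero]
  apply mul_right_cancel₀ hBE
  rw [hf, ← Polynomial.map_mul, hdiv]

end Pool.Agent.U707.PT
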