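import Pool.Agent.U707.PT.Core
import Pool.Agent.U707.PT.Dense

/-! The local theorem. -/

set_option autoImplicit false

open Polynomial Module NumberField

namespace Pool.Agent.U707.PT

section group
variable {E G : Type} [Field E] [CharZero E] [Group G]

theorem gact_single {V : Type} [AddCommGroup V] [Module E V] (ρ : G →* Module.End E V) (g : G) :
    gact ρ (MonoidAlgebra.single g (1 : E)) = ρ g := by
  unfold gact
  rw [MonoidAlgebra.lift_single, one_smul]

/-- the module over the group algebra -/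
@[reducible] noncomputable def modA {V : Type} [AddCommGroup V] [Module E V]
    (ρ : G →* Module.End E V) : Module (MonoidAlgebra E G) V :=
  Module.compHom V (MonoidAlgebra.lift E (Module.End E V) G ρ).toRingHom

theorem gact_add {V : Type} [AddCommGroup V] [Module E V] (ρ : G →* Module.End E V)
    (r s : MonoidAlgebra E G) : gact ρ (r + s) = gact ρ r + gact ρ s := map_add _ _ _

theorem gact_zero {V : Type} [AddCommGroup V] [Module E V] (ρ : G →* Module.End E V) :
    gact ρ (0 : MonoidAlgebra E G) = 0 := map_zero _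

theorem gact_mul {V : Type} [AddCommGroup V] [Module E V] (ρ : G →* Module.End E V)
    (r s : MonoidAlgebra E G) : gact ρ (r * s) = gact ρ r * gact ρ s := map_mul _ _ _

theorem gact_sub_one {V : Type} [AddCommGroup V] [Module E V] (ρ : G →* Module.End E V)
    (r : MonoidAlgebra E G) : gact ρ (r - 1) = gact ρ r - 1 := by
  unfold gact
  rw [map_sub, map_one]

theorem gact_aeval {V : Type} [AddCommGroup V] [Module E V] (ρ : G →* Module.End E V)
    (r : MonoidAlgebra E G) (f : E[X]) : gact ρ (aeval r f) = aeval (gact ρ r) f := by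
  unfold gact
  exact (Polynomial.aeval_algHom_apply _ _ _).symm

/-- the trace identity extends to the group algebra -/
theorem tr_group {ι : Type} [Fintype ι] (V : ι → Type) [∀ i, AddCommGroup (V i)]
    [∀ i, Module E (V i)] (ρ : ∀ i, G →* Module.End E (V i)) (b : ι → ℤ)
    (h : ∀ g, ∑ i, (b i : E) * LinearMap.trace E (V i) (ρ i g) = 0) (r : MonoidAlgebra E G) :
    ∑ i, (b i : E) * LinearMap.trace E (V i) (gact (ρ i) r) = 0 := by
  induction r using MonoidAlgebra.induction_linear with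
  | zero => simp [gact_zero]
  | add f g hf hg =>
    simp only [gact_add, map_add, mul_add, Finset.sum_add_distrib, hf, hg, add_zero]
  | single g a =>
    have h1 : ∀ i, gact (ρ i) (MonoidAlgebra.single g a) = a • ρ i g := by
      intro i
      unfold gact
      rw [MonoidAlgebra.lift_single]
    simp only [h1, map_smul, smul_eq_mul]
    have h2 : ∀ i, (b i : E) * (a * LinearMap.trace E (V i) (ρ i g)) =
        a * ((b i : E) * LinearMap.trace E (V i) (ρ i g)) := fun i => by ring
    simp only [h2, ← Finset.mul_sum, h g, mul_zero]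

end group

/-- the local theorem -/
theorem main_local (hP : S_PROJ) (hD : S_DET) (hS : S_SUB) (hE : S_EXT) (hF : S_FAC)
    (hR : S_ROOT) (hG : S_RING) {ℓ : ℕ} [Fact ℓ.Prime] {ι : Type} [Fintype ι] (R : ι → GalRep ℓ)
    (w b : ι → ℤ) (hw : ∀ i, (R i).IsPure (w i)) {B : Set ℕ} (hB : Thin B)
    (hb : ∀ p, p.Prime → p ∉ B → ∀ Q φ, Above p Q → IsFrob p Q φ →
      ∑ i, (b i : ℚ_[ℓ]) * (R i).tr φ = 0)
    {p : ℕ} (hp : p.Prime) {Q : Ideal Zbar} {φ : AbsGal} (hQ : Above p Q) (hφ : IsFrob p Q φ)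
    {t : AbsGal → ℚ_[ℓ]} (ht : IsTame p Q φ t) (N : ∀ i, Module.End ℚ_[ℓ] (R i).V)
    (hN : ∀ i, (R i).IsMonodromy Q t (N i)) (m : ℤ)
    (hg : ∀ i, w i = m → b i < 0 → MWPure p ((R i).ρ φ) (N i) m ∧ (R i).MeanWeight p φ m) :
    (∀ i, w i = m → 0 < b i → MWPure p ((R i).ρ φ) (N i) m) ∧
    ∀ f : ι → ℚ_[ℓ][X], (∀ i, w i = m → (R i).IsLocalFactor Q φ (f i)) →
      ∏ i with w i = m, f i ^ (b i).toNat = ∏ i with w i = m, f i ^ (-b i).toNat := by
  classical
  have hp1 : 1 < p := hp.one_lt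
  -- the group algebra
  letI inst : ∀ i, Module (MonoidAlgebra ℚ_[ℓ] AbsGal) (R i).V := fun i => modA (R i).ρ
  have hsm : ∀ i (r : MonoidAlgebra ℚ_[ℓ] AbsGal) (x : (R i).V), r • x = gact (R i).ρ r x :=
    fun i r x => rfl
  haveI : ∀ i, IsScalarTower ℚ_[ℓ] (MonoidAlgebra ℚ_[ℓ] AbsGal) (R i).V := fun i =>
    ⟨fun a r x => by
      rw [hsm, hsm]
      unfold gact
      rw [map_smul, LinearMap.smul_apply]⟩
  have hact : ∀ i (r : MonoidAlgebra ℚ_[ℓ] AbsGal), act (R i).V r = gact (R i).ρ r :=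
    fun i r => rfl
  have htr : ∀ r : MonoidAlgebra ℚ_[ℓ] AbsGal,
      ∑ i, (b i : ℚ_[ℓ]) * LinearMap.trace ℚ_[ℓ] (R i).V (gact (R i).ρ r) = 0 :=
    tr_group (fun i => (R i).V) (fun i => (R i).ρ) b (tr_zero R b hB hb)
  -- separation of the weights
  choose B' hB' hB'w using hw
  obtain ⟨p₀, Q₀, φ₀, hp₀, hp₀B, hQ₀, hφ₀, -⟩ := exists_frob ⊤ isOpen_univ
    (thin_of_finite (Set.finite_iUnion hB')) 1
  have hw0 : ∀ i, wt p₀ ((R i).ρ φ₀) (w i) = ⊤ := fun i =>
    hB'w i p₀ hp₀ (fun h => hp₀B (Set.mem_iUnion.2 ⟨i, h⟩)) Q₀ φ₀ hQ₀ hφ₀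
  obtain ⟨P, hPP⟩ := hP ℚ_[ℓ] ι (fun i => (R i).V) (fun i => (R i).ρ φ₀) p₀ hp₀.one_lt
    (fun i => top_le_iff.1 (by rw [← hw0 i]; exact le_iSup _ _))
  set π : MonoidAlgebra ℚ_[ℓ] AbsGal :=
    aeval (MonoidAlgebra.single φ₀ (1 : ℚ_[ℓ])) ((P m).map (algebraMap ℚ ℚ_[ℓ])) with hπ
  have hπa : ∀ i, gact (R i).ρ π = if w i = m then 1 else 0 := by
    intro i
    rw [hπ, gact_aeval, gact_single]
    ext x
    have h1 := hPP i m (w i) x (by rw [hw0]; trivial)
    rw [h1]
    split_ifs <;> rfl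
  set b' : ι → ℤ := fun i => if w i = m then b i else 0 with hb'
  have htr' : ∀ r : MonoidAlgebra ℚ_[ℓ] AbsGal,
      ∑ i, (b' i : ℚ_[ℓ]) * LinearMap.trace ℚ_[ℓ] (R i).V (act (R i).V r) = 0 := by
    intro r
    rw [← htr (r * π)]
    refine Finset.sum_congr rfl fun i _ => ?_
    rw [gact_mul, hπa, hact, hb']
    by_cases h : w i = m
    · simp [h]
    · simp [h]
  -- the monodromy operator as an element of the group algebra
  choose hnil U hU hUN using hN
  haveI hcs : CompactSpace AbsGal := inferInstance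
  haveI : ∀ i, (U i).FiniteIndex := fun i => by
    haveI := Subgroup.quotient_finite_of_isOpen (U i) (hU i)
    exact Subgroup.finiteIndex_of_finite_quotient
  haveI : (⨅ i, U i).FiniteIndex := Subgroup.finiteIndex_iInf fun i => inferInstance
  obtain ⟨ν, e, hνe⟩ := hG ℚ_[ℓ] AbsGal ι (fun i => (R i).V) (fun i => (R i).ρ) N (inertia Q)
    (⨅ i, U i).normalCore φ t p hp1 (fun g => inertia_conj hQ hφ hp.pos g)
    (fun g hg h hh => ht.add g h hg hh) (fun g hg => ht.conj g hg) ht.ne_zero hnil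
    (fun i g hgI hgU => hUN i g hgI
      ((Subgroup.mem_iInf.1 ((Subgroup.normalCore_le _) hgU)) i))
  set F : MonoidAlgebra ℚ_[ℓ] AbsGal := MonoidAlgebra.single φ 1 with hFd
  have hFa : ∀ i, act (R i).V F = (R i).ρ φ := fun i => by rw [hact, hFd, gact_single]
  have hνa : ∀ i, act (R i).V ν = N i := fun i => by rw [hact]; exact (hνe i).1
  have htw : ∀ i, ∀ x : (R i).V, ν • F • x = (p : ℚ_[ℓ]) • F • ν • x := by
    intro i x
    have h1 := LinearMap.congr_fun (hνe i).2.1 x
    have h2 : ∀ y : (R i).V, F • y = (R i).ρ φ y := fun y => LinearMap.congr_fun (hFa i) y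
    have h3 : ∀ y : (R i).V, ν • y = N i y := fun y => LinearMap.congr_fun (hνa i) y
    rw [h2, h3, h2, h3]
    exact h1
  have hgood : ∀ i, b' i < 0 → MWPure p (act (E := ℚ_[ℓ]) (R i).V F)
      (act (E := ℚ_[ℓ]) (R i).V ν) m ∧ Balanced (E := ℚ_[ℓ]) (R i).V p F m := by
    intro i hi
    have hwi : w i = m := by
      by_contra h
      simp [hb', h] at hi
    have hbi : b i < 0 := by simpa [hb', hwi] using hi
    obtain ⟨h1, h2⟩ := hg i hwi hbi
    refine ⟨?_, ?_⟩
    · rw [hFa, hνa]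
      exact h1
    · intro W
      rw [hFa]
      refine h2 (W.restrictScalars ℚ_[ℓ]) ?_
      intro g x hx
      have h3 := W.smul_mem (MonoidAlgebra.single g (1 : ℚ_[ℓ])) hx
      rw [hsm, gact_single] at h3
      exact h3
  have hpure : ∀ i, 0 < b' i → MWPure p (act (E := ℚ_[ℓ]) (R i).V F)
      (act (E := ℚ_[ℓ]) (R i).V ν) m :=
    core1 hD hS hE (fun i => (R i).V) b' p F ν m hp1 htr' htw hgood
  refine ⟨?_, ?_⟩
  · intro i hwi hbi
    have h1 := hpure i (by simpa [hb', hwi] using hbi)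
    rwa [hFa, hνa] at h1
  · intro f hf
    -- the indices with nonzero coefficients
    have hwk : ∀ i : {i // b' i ≠ 0}, w i = m := by
      intro i
      by_contra h
      exact i.2 (by simp [hb', h])
    choose T hT hTf using fun i : {i // b' i ≠ 0} => hf i (hwk i)
    have hW : ∀ i : {i // b' i ≠ 0}, (R i).inv Q =
        (LinearMap.ker (act (E := ℚ_[ℓ]) (R i).V ν) ⊓
          LinearMap.ker (act (E := ℚ_[ℓ]) (R i).V (e - 1)) : Submodule ℚ_[ℓ] (R i).V) := by
      intro i
      ext x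
      rw [Submodule.mem_inf, LinearMap.mem_ker, LinearMap.mem_ker, hνa, hact, gact_sub_one,
        LinearMap.sub_apply, Module.End.one_apply, sub_eq_zero]
      exact (hνe i).2.2.2.2.2 x
    set T' : ∀ i : {i // b' i ≠ 0}, Module.End ℚ_[ℓ] (LinearMap.ker
        (act (E := ℚ_[ℓ]) (R i).V ν) ⊓ LinearMap.ker (act (E := ℚ_[ℓ]) (R i).V (e - 1)) :
          Submodule ℚ_[ℓ] (R i).V) := fun i => (LinearEquiv.ofEq _ _ (hW i)).conj (T i) with hT'
    have hfac := hF ℚ_[ℓ] (MonoidAlgebra ℚ_[ℓ] AbsGal) {i // b' i ≠ 0} (fun i => (R i).V)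
      (fun i => b' i) p F ν e m hp1 ?_ (fun i => htw i) ?_ ?_ T' ?_
    · have hroot := hR ℚ_[ℓ] {i // b' i ≠ 0} (fun i => (LinearMap.ker
        (act (E := ℚ_[ℓ]) (R i).V ν) ⊓ LinearMap.ker (act (E := ℚ_[ℓ]) (R i).V (e - 1)) :
          Submodule ℚ_[ℓ] (R i).V)) T' (fun i => b' i) hfac
      have hch : ∀ i : {i // b' i ≠ 0}, (T' i).charpoly.reverse = f i := by
        intro i
        rw [hTf i, hT']
        congr 1
        exact LinearEquiv.charpoly_conj _ _
      simp only [hch] at hroot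
      have hprod : ∀ (s : ℤ → ℕ), s 0 = 0 → ∏ i : {i // b' i ≠ 0}, f i ^ s (b' i) =
          ∏ i with w i = m, f i ^ s (b i) := by
        intro s hs0
        rw [← Finset.prod_subtype (Finset.univ.filter fun i => b' i ≠ 0) (p := fun i => b' i ≠ 0)
          (fun i => by simp) (fun i => f i ^ s (b' i))]
        have h1 : ∀ i, w i = m → b' i = b i := fun i hi => by simp [hb', hi]
        rw [Finset.prod_filter, Finset.prod_filter]
        refine Finset.prod_congr rfl fun i _ => ?_
        by_cases hwi : w i = m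
        · rw [if_pos hwi, h1 i hwi]
          by_cases hbi : b i = 0
          · rw [if_neg (by simpa using hbi), hbi, hs0, pow_zero]
          · rw [if_pos hbi]
        · rw [if_neg hwi, if_neg]
          simp [hb', hwi]
      have h1 := hprod (fun z => z.toNat) rfl
      have h2 := hprod (fun z => (-z).toNat) rfl
      rw [← h1, ← h2]
      exact hroot
    · intro r
      rw [← htr' r, ← Finset.sum_subtype (Finset.univ.filter fun i => b' i ≠ 0)
        (p := fun i => b' i ≠ 0) (fun i => by simp)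
        (fun i => (b' i : ℚ_[ℓ]) * LinearMap.trace ℚ_[ℓ] (R i).V (act (R i).V r)),
        Finset.sum_filter]
      refine Finset.sum_congr rfl fun i _ => ?_
      by_cases h : b' i = 0
      · simp [h]
      · rw [if_pos h]
    · intro i x
      obtain ⟨h1, h2, h3, h4, h5, h6⟩ := hνe i
      have e1 : ∀ y : (R i).V, F • y = (R i).ρ φ y := fun y => LinearMap.congr_fun (hFa i) y
      have e2 : ∀ y : (R i).V, ν • y = N i y := fun y => LinearMap.congr_fun (hνa i) y
      refine ⟨?_, ?_, ?_⟩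
      · rw [smul_smul, hsm, hsm, h3]
      · rw [e1, e1]
        exact LinearMap.congr_fun h5 x
      · rw [e2, e2]
        exact LinearMap.congr_fun h4 x
    · intro i
      rcases lt_or_gt_of_ne i.2 with h | h
      · exact (hgood i h).1
      · exact hpure i h
    · intro i x
      have e1 : ∀ y : (R i).V, F • y = (R i).ρ φ y := fun y => LinearMap.congr_fun (hFa i) y
      rw [e1, hT']
      exact hT i _

end Pool.Agent.U707.PT
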